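import Pool.Agent.Helper48.TT.Proj

/-! Project TT: the main theorem, in terms of the rows. -/

set_option autoImplicit false

namespace Pool.Agent.Helper48.TT

open IntermediateField TensorProduct Pool.Agent.Helper75.QC Pool.Agent.Helper75.WC
  Pool.Agent.Helper15.WC

/-- Two eigenvectors of curves with multiplication by the same imaginary quadratic field. -/
def PairTheory.CM {Ω L G : Type} [Field Ω] [Field L] (T : PairTheory Ω L G) (N : ℕ) : Prop :=
  ∀ (C C' : Type) [Field C] [Algebra Ω C] [Field C'] [Algebra Ω C'] (z : T.H 1 C) (z' : T.H 1 C')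
    (α α' : G → L), IsEigen T.toBaseTheory N C (T.act 1 C) z α →
    IsEigen T.toBaseTheory N C' (T.act 1 C') z' α' →
    ∀ (D D' : Type) [Field D] [Algebra Ω D] [Field D'] [Algebra Ω D'],
      (⊤ : IntermediateField Ω D).FG → (⊤ : IntermediateField Ω D').FG →
      ∀ r : T.H 1 D ⊗[L] T.H 1 D',
        (∀ γ, TensorProduct.map (T.act 1 D γ) (T.act 1 D' γ) r = (α γ * α' γ) • r) →
        (∀ γ, T.tate γ * (α γ * α' γ) = 1) ∨
          r ∈ Submodule.span L (pure2 (T.act 1 D) (T.act 1 D') α α')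

/-- `K` is an abelian covering of the plane, and its cyclic subextensions are in the list. -/
def IsCover (Ω : Type) [Field Ω] (N : ℕ) (K : Type) [Field K] [Algebra Ω K] : Prop :=
  ∃ R : IntermediateField Ω K, FiniteDimensional R K ∧ IsGalois R K ∧
    (∀ g h : K ≃ₐ[R] K, g * h = h * g) ∧ ∀ M : IntermediateField R K, IsCyclic (M ≃ₐ[R] M) →
      Uniruled Ω M 2 ∨ Pool.Agent.Helper35.WC.RowData Ω R M ∧ Module.finrank R M ∣ N

variable {Ω L G : Type} [Field Ω] [Field L] (T : PairTheory Ω L G)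

/-- **The class of a projector on one side.** -/
theorem cover_side [IsAlgClosed Ω] [CharZero L] [IsAlgClosed L] {N : ℕ} {K : Type} [Field K]
    [Algebra Ω K] (hK : IsCover Ω N K) :
    ∃ (m : ℕ) (M : Fin m → Type) (_ : ∀ i, Field (M i)) (_ : ∀ i, Algebra Ω (M i))
      (j : ∀ i, M i →ₐ[Ω] K) (s : ∀ i, T.H 2 K →ₗ[L] T.H 2 (M i)),
      (∀ i (k : K), IsAlgebraic (j i).fieldRange k) ∧
      (∀ t, ∑ i, T.map 2 (j i) (s i t) = t) ∧
      ∀ i, s i = 0 ∨ ∃ (C D : Type) (_ : Field C) (_ : Algebra Ω C) (_ : Field D)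
        (_ : Algebra Ω D) (z : T.H 1 C) (α : G → L) (g : T.H 1 D →ₗ[L] T.H 2 (M i) ⊗[L] T.H 1 C)
        (d : T.H 2 K →ₗ[L] T.H 1 D) (φ : T.H 1 C →ₗ[L] L),
        IsEigen T.toBaseTheory N C (T.act 1 C) z α ∧ IsSide T (s i) α C D z g d φ := by
  classical
  obtain ⟨R, hfin, hgal, hab, hM⟩ := hK
  obtain ⟨m, χ, E, hsum, hE, hcomm⟩ := exists_projectors hab (galRep T.toBaseTheory R 2)
  have hl := fun i => exists_lift T.toBaseTheory R 2 (χ i) (E i) (fun g t => hE i g t)
  choose M hcyc s c hs hc hc1 using hl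
  refine ⟨m, fun i => M i, inferInstance, inferInstance, fun i => incl R (M i), s,
    fun i k => incl_alg R (M i) k, fun t => ?_, fun i => ?_⟩
  · exact (Finset.sum_congr rfl fun i _ => hs i t).trans (hsum t)
  · by_cases h0 : s i = 0
    · exact Or.inl h0
    rcases hM (M i) (hcyc i) with h | ⟨h, hN⟩
    · exact Or.inl (LinearMap.ext fun t => T.uniruled 2 (M i) h (s i t))
    · right
      refine exists_side T R (M i) h hN (s i) (fun γ t => ?_) (c i) (hc i) (hc1 i) h0
      apply T.inj 2 _ (incl_alg R (M i))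
      rw [T.map_act, hs, hs]
      exact hcomm i (T.act 2 K γ) (fun g v => (T.map_act 2 _ γ v).symm) t

/-- **The main theorem.** -/
theorem main [IsAlgClosed Ω] [CharZero L] [IsAlgClosed L] {N : ℕ} (hcm : T.CM N) {K K' : Type}
    [Field K] [Algebra Ω K] [Field K'] [Algebra Ω K'] (hK : IsCover Ω N K) (hK' : IsCover Ω N K')
    (t : T.H 2 K ⊗[L] T.H 2 K')
    (ht : ∀ γ, T.tate γ ^ 2 • TensorProduct.map (T.act 2 K γ) (T.act 2 K' γ) t = t) :
    t ∈ T.cycles K K' := by
  classical
  obtain ⟨m, M, iM, jM, j, s, hj, hsum, hside⟩ := cover_side T hK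
  obtain ⟨m', M', iM', jM', j', s', hj', hsum', hside'⟩ := cover_side T hK'
  have hdec : ∀ u : T.H 2 K ⊗[L] T.H 2 K', ∑ i, ∑ i', TensorProduct.map (T.map 2 (j i))
      (T.map 2 (j' i')) (TensorProduct.map (s i) (s' i') u) = u := by
    intro u
    induction u using TensorProduct.induction_on with
    | zero => simp
    | add u u' hu hu' =>
      conv_rhs => rw [← hu, ← hu']
      simp only [map_add, Finset.sum_add_distrib]
    | tmul p q =>
      simp only [map_tmul]
      conv_rhs => rw [← hsum p, ← hsum' q]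
      rw [sum_tmul]
      exact Finset.sum_congr rfl fun i _ => (tmul_sum _ _ _).symm
  rw [← hdec t]
  refine Submodule.sum_mem _ fun i _ => Submodule.sum_mem _ fun i' _ => ?_
  rw [T.transfer (j i) (j' i') (hj i) (hj' i')]
  rcases hside i with h | ⟨C, D, iC, jC, iD, jD, z, α, g, d, φ, he, h⟩
  · rw [h, map_zero_left, LinearMap.zero_apply]
    exact Submodule.zero_mem _
  rcases hside' i' with h' | ⟨C', D', iC', jC', iD', jD', z', α', g', d', φ', he', h'⟩
  · rw [h', map_zero_right, LinearMap.zero_apply]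
    exact Submodule.zero_mem _
  exact core T h h' (hcm C C' z z' α α' he he' D D' h.fg h'.fg) t ht

/-- **Domination.** -/
theorem main_dom [IsAlgClosed Ω] [CharZero L] [IsAlgClosed L] {N : ℕ} (hcm : T.CM N)
    {K K' K₀ K₀' : Type} [Field K] [Algebra Ω K] [Field K'] [Algebra Ω K'] [Field K₀]
    [Algebra Ω K₀] [Field K₀'] [Algebra Ω K₀'] (hK : IsCover Ω N K) (hK' : IsCover Ω N K')
    (j : K₀ →ₐ[Ω] K) (j' : K₀' →ₐ[Ω] K') (hj : ∀ k : K, IsAlgebraic j.fieldRange k)
    (hj' : ∀ k : K', IsAlgebraic j'.fieldRange k) (t : T.H 2 K₀ ⊗[L] T.H 2 K₀')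
    (ht : ∀ γ, T.tate γ ^ 2 • TensorProduct.map (T.act 2 K₀ γ) (T.act 2 K₀' γ) t = t) :
    t ∈ T.cycles K₀ K₀' := by
  rw [← T.transfer j j' hj hj']
  refine main T hcm hK hK' _ fun γ => ?_
  have h1 : ∀ u : T.H 2 K₀ ⊗[L] T.H 2 K₀',
      TensorProduct.map (T.act 2 K γ) (T.act 2 K' γ)
        (TensorProduct.map (T.map 2 j) (T.map 2 j') u) =
      TensorProduct.map (T.map 2 j) (T.map 2 j')
        (TensorProduct.map (T.act 2 K₀ γ) (T.act 2 K₀' γ) u) := by
    intro u
    induction u using TensorProduct.induction_on with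
    | zero => simp
    | add u u' hu hu' => simp only [map_add, hu, hu']
    | tmul p q => rw [map_tmul, map_tmul, map_tmul, map_tmul, T.map_act, T.map_act]
  rw [h1, ← map_smul, ht]

end Pool.Agent.Helper48.TT
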