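import Pool.Agent.Helper48.TT.Defs
import Pool.Agent.Helper48.TT.MainM
import Pool.Agent.Helper15.GD.Conv

/-! Project TT: from the axioms as stated in `Defs` to the structure used in the proofs. -/

set_option autoImplicit false

namespace Pool.Agent.Helper48.TT

open IntermediateField TensorProduct CategoryTheory MonoidalCategory Pool.Agent.Helper15.GD

variable {Ω L G : Type} [Field Ω] [Field L]

/-- the homomorphism from `L` with the value `x` at `1` -/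
noncomputable def ofEl {M : ModuleCat.{0} L} : M →ₗ[L] (𝟙_ (ModuleCat.{0} L) ⟶ M) where
  toFun x := ModuleCat.ofHom (LinearMap.toSpanSingleton L M x)
  map_add' x y := ModuleCat.hom_ext (LinearMap.ext_ring (by
    show (1 : L) • (x + y) = (1 : L) • x + (1 : L) • y
    rw [smul_add]))
  map_smul' c x := ModuleCat.hom_ext (LinearMap.ext_ring (by
    show (1 : L) • (c • x) = c • ((1 : L) • x)
    rw [smul_comm]))

theorem ofEl_hom {M : ModuleCat.{0} L} (x : M) (c : L) : (ofEl x).hom c = c • x := rfl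

theorem ofEl_comp {M N : ModuleCat.{0} L} (f : M ⟶ N) (x : M) : ofEl x ≫ f = ofEl (f.hom x) := by
  refine ModuleCat.hom_ext (LinearMap.ext_ring ?_)
  show f.hom ((1 : L) • x) = (1 : L) • f.hom x
  rw [map_smul]

theorem ofEl_inj {M : ModuleCat.{0} L} {x y : M} (h : ofEl x = ofEl y) : x = y := by
  have h1 := congrArg (fun f => f.hom (1 : L)) h
  change (1 : L) • x = (1 : L) • y at h1
  rwa [one_smul, one_smul] at h1

theorem exists_ofEl {M : ModuleCat.{0} L} (z : 𝟙_ (ModuleCat.{0} L) ⟶ M) : ∃ x : M, z = ofEl x := by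
  refine ⟨z.hom (1 : L), ModuleCat.hom_ext (LinearMap.ext_ring ?_)⟩
  show z.hom (1 : L) = (1 : L) • z.hom (1 : L)
  rw [one_smul]

theorem isMul_ofEl {M : ModuleCat.{0} L} {c : L} {x y : M} :
    IsMul c (ofEl x) (ofEl y) ↔ c • x = y := by
  unfold IsMul
  rw [← map_smul]
  exact ⟨fun h => ofEl_inj h, fun h => congrArg _ h⟩

theorem lifts_ofEl {V M : ModuleCat.{0} L} (f : V ⟶ M) (x : M) :
    Lifts (ofEl x) f ↔ ∃ y, f.hom y = x := by
  constructor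
  · rintro ⟨s, hs⟩
    obtain ⟨y, rfl⟩ := exists_ofEl s
    rw [ofEl_comp] at hs
    exact ⟨y, ofEl_inj hs⟩
  · rintro ⟨y, rfl⟩
    exact ⟨ofEl y, ofEl_comp f y⟩

theorem contr₂_ofEl {U V W U' V' W' : ModuleCat.{0} L} (g : U ⟶ V ⊗ W) (g' : U' ⟶ V' ⊗ W')
    (r : (U ⊗ U' : ModuleCat.{0} L)) (q : W ⊗ W' ⟶ 𝟙_ (ModuleCat.{0} L)) :
    contr₂ g g' (ofEl r) q =
      ofEl (M := V ⊗ V') (contr q.hom (TensorProduct.map g.hom g'.hom r)) := by
  unfold contr₂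
  rw [ofEl_comp]
  congr 1
  have h1 : ∀ u : (V ⊗[L] W) ⊗[L] (V' ⊗[L] W'),
      (ρ_ (V ⊗ V')).hom.hom (((V ⊗ V') ◁ q).hom ((tensorμ V W V' W').hom u)) =
        contr q.hom u := by
    intro u
    induction u using TensorProduct.induction_on with
    | zero => simp
    | add u u' hu hu' => rw [map_add, map_add, map_add, map_add, hu, hu']
    | tmul p p' =>
      induction p using TensorProduct.induction_on with
      | zero => simp
      | add u u' hu hu' => rw [add_tmul, map_add, map_add, map_add, map_add, hu, hu']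
      | tmul a b =>
        induction p' using TensorProduct.induction_on with
        | zero => simp
        | add u u' hu hu' => rw [tmul_add, map_add, map_add, map_add, map_add, hu, hu']
        | tmul a' b' =>
          rw [contr_tmul]
          rfl
  exact h1 _

/-- the structure used in the proofs -/
noncomputable def TateCoh.toPair (T : TateCoh Ω L G) {N : ℕ} (h : T.IsTheory N) :
    PairTheory Ω L G where
  toBaseTheory := T.toCoh.toBase h.base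
  act := fun i K _ _ γ => (T.act i ⟨K⟩ γ).hom
  map_act := fun i {K K'} _ _ _ _ g γ t =>
    congrArg (fun f => f.hom t) (h.equivariant i ⟨K⟩ ⟨K'⟩ g γ)
  tate := T.tate
  corr := fun K C D _ _ _ _ _ _ => {g | ModuleCat.ofHom g ∈ T.corr ⟨K⟩ ⟨C⟩ ⟨D⟩}
  cycles := fun K K' _ _ _ _ => LinearMap.range (T.cl ⟨K⟩ ⟨K'⟩).hom
  simple := fun C _ _ n α β ζ v u σ h1 h2 h3 h4 h5 h6 h7 ξ z z' hz0 hz hz' => by
    obtain ⟨c, hc⟩ := h.lines ⟨C⟩ n α β ζ v u σ ⟨h1, h2, h3, h4, h5, h6, h7⟩ ξ (ofEl z) (ofEl z')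
      (fun h0 => hz0 (ofEl_inj (h0.trans (map_zero _).symm)))
      (by rw [ofEl_comp]; exact isMul_ofEl.2 hz.symm)
      (by rw [ofEl_comp]; exact isMul_ofEl.2 hz'.symm)
    exact ⟨c, (isMul_ofEl.1 hc).symm⟩
  semisimple := fun K _ _ hK P hP => by
    exact h.semisimple ⟨K⟩ hK P hP
  gysin := fun {K C N} _ _ _ _ _ _ a b x y v h1 h2 h3 h4 h5 => by
    obtain ⟨D, hD, g, hg, hh, hk⟩ := h.gysin ⟨K⟩ ⟨C⟩ ⟨N⟩ a b ⟨h1, h2, ⟨x, y, h3⟩, ⟨v, h4, h5⟩⟩
    refine ⟨D.carrier, D.field, D.algebra, g.hom, hD, hg, fun γ s => ?_, fun t ht => ?_⟩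
    · exact congrArg (fun f => f.hom s) (hh γ)
    · have e0 := T.cross_eq (K := ⟨K⟩) (C := ⟨C⟩) (N := ⟨N⟩) a b
      have e1 : TensorProduct.lift ((T.cup' ⟨N⟩).compl₁₂ (T.map (K := ⟨K⟩) (K' := ⟨N⟩) 2 a).hom
          (T.map (K := ⟨C⟩) (K' := ⟨N⟩) 1 b).hom) t =
          (T.cross (K := ⟨K⟩) (C := ⟨C⟩) (N := ⟨N⟩) a b).hom t := by rw [e0]
      have ht' : (T.cross (K := ⟨K⟩) (C := ⟨C⟩) (N := ⟨N⟩) a b).hom t = 0 := by
        rw [← e1]
        exact ht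
      have h6 := hk (𝟙_ (ModuleCat.{0} L)) (ofEl (M := T.H 2 ⟨K⟩ ⊗ T.H 1 ⟨C⟩) t) (by
        rw [ofEl_comp, ht', map_zero])
      rw [lifts_ofEl] at h6
      exact h6
  divisor := fun K C D _ _ _ _ _ _ g hg A hA ξ =>
    h.divisors ⟨K⟩ ⟨C⟩ ⟨D⟩ (ModuleCat.ofHom g) hg (ModuleCat.ofHom A)
      (fun γ => ModuleCat.hom_ext (LinearMap.ext fun t => (hA γ t).symm)) (ModuleCat.ofHom ξ)
  pair := fun K C D K' C' D' _ _ _ _ _ _ _ _ _ _ _ _ g hg g' hg' r q hr hq => by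
    have h1 := h.pairs ⟨K⟩ ⟨C⟩ ⟨D⟩ ⟨K'⟩ ⟨C'⟩ ⟨D'⟩ (ModuleCat.ofHom g) hg (ModuleCat.ofHom g') hg'
      (ofEl (M := T.H 1 ⟨D⟩ ⊗ T.H 1 ⟨D'⟩) r) (ModuleCat.ofHom q)
      (fun γ => by
        rw [ofEl_comp]
        exact isMul_ofEl.2 (hr γ))
      (fun γ => ModuleCat.hom_ext (LinearMap.ext fun t => hq γ t))
    rw [contr₂_ofEl, lifts_ofEl] at h1
    exact h1
  transfer := fun {K K₁ K' K₁'} _ _ _ _ _ _ _ _ j j' hj hj' t => by
    have h1 := h.images ⟨K⟩ ⟨K₁⟩ ⟨K'⟩ ⟨K₁'⟩ j j' hj hj' (ofEl (M := T.H 2 ⟨K⟩ ⊗ T.H 2 ⟨K'⟩) t)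
    rw [ofEl_comp, lifts_ofEl, lifts_ofEl] at h1
    exact h1

theorem TateCoh.toPair_cm (T : TateCoh Ω L G) {N : ℕ} (h : T.IsTheory N) :
    (T.toPair h).CM N := by
  intro C C' _ _ _ _ z z' a a' hz hz' D D' _ _ _ _ hD hD' r hr
  have key : ∀ (C : Type) [Field C] [Algebra Ω C] (z : (T.toPair h).H 1 C) (a : G → L),
      Pool.Agent.Helper48.TT.IsEigen (T.toPair h).toBaseTheory N C ((T.toPair h).act 1 C) z a →
      T.IsEigen N (C := ⟨C⟩) (ofEl (M := T.H 1 ⟨C⟩) z) a := by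
    rintro C _ _ z a ⟨n, α, β, ζ, v, u, σ, ξ, h1, h2, h3, h4, h5, h6, h7, h8, h9, h10, h11, h12⟩
    refine ⟨n, α, β, ζ, v, u, σ, ξ, ⟨h1, h2, h3, h4, h5, h6, h7⟩, h8, h9,
      fun h0 => h10 (ofEl_inj (h0.trans (map_zero _).symm)), ?_, fun γ => ?_⟩
    · rw [ofEl_comp]
      exact isMul_ofEl.2 h11.symm
    · rw [ofEl_comp]
      exact isMul_ofEl.2 (h12 γ).symm
  rcases h.cm ⟨C⟩ ⟨C'⟩ _ _ a a' (key C z a hz) (key C' z' a' hz') ⟨D⟩ ⟨D'⟩ hD hD'
    (ofEl (M := T.H 1 ⟨D⟩ ⊗ T.H 1 ⟨D'⟩) r) (fun γ => by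
      rw [ofEl_comp]
      exact isMul_ofEl.2 (hr γ).symm) with h1 | ⟨V, V', w, w', hw, hw', h1⟩
  · left
    intro γ
    rw [mul_comm]
    exact h1 γ
  · right
    rw [lifts_ofEl] at h1
    obtain ⟨y, rfl⟩ := h1
    have h2 : ∀ y : V ⊗[L] V', TensorProduct.map w.hom w'.hom y ∈
        Submodule.span L (pure2 (L := L) (V := T.H 1 ⟨D⟩) (V' := T.H 1 ⟨D'⟩)
            (fun γ => (T.act 1 ⟨D⟩ γ).hom) (fun γ => (T.act 1 ⟨D'⟩ γ).hom) a a') := by
      intro y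
      induction y using TensorProduct.induction_on with
      | zero => rw [map_zero]; exact Submodule.zero_mem _
      | add u u' hu hu' => rw [map_add]; exact Submodule.add_mem _ hu hu'
      | tmul x x' =>
        refine Submodule.subset_span ⟨w.hom x, w'.hom x', fun γ => ?_, fun γ => ?_, rfl⟩
        · exact (congrArg (fun f => f.hom x) (hw γ)).symm
        · exact (congrArg (fun f => f.hom x') (hw' γ)).symm
    exact h2 y

end Pool.Agent.Helper48.TT
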