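import Pool.Agent.Helper48.TT.Input
import Pool.Agent.Helper75.WC.CurveFin

/-! Project TT: the curves of degree at most five, with the degree over `Ω(x, y)`. -/

set_option autoImplicit false

namespace Pool.Agent.Helper48.TT

open IntermediateField Pool.Agent.Helper75.QC Pool.Agent.Helper75.WC

theorem LstN.of_le {Ω R B M : Type} [Field Ω] [Field R] [Field B] [Field M] [Algebra Ω M]
    [Algebra R M] [Algebra B M] {n : ℕ}
    (hRB : ∀ r : R, ∃ b : B, algebraMap R M r = algebraMap B M b) (h : LstN Ω B M n) :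
    LstN Ω R M n := by
  obtain ⟨x, y, w, h1, h2, h3⟩ := h
  refine ⟨x, y, w, fun r => ?_, h2, h3⟩
  obtain ⟨b, hb⟩ := hRB r
  rw [hb]
  exact h1 b

/-- **Curves of degree at most five.** -/
theorem lstN_of_curve {Ω R M : Type} [Field Ω] [IsAlgClosed Ω] [Field R] [Field M] [Algebra Ω R]
    [Algebra Ω M] [Algebra R M] [IsScalarTower Ω R M] [FiniteDimensional R M] [IsGalois R M]
    (x y w : M) (hR : ∀ r : R, algebraMap R M r ∈ adjoin Ω {x, y}) (hM : adjoin Ω {x, y, w} = ⊤)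
    {n : ℕ} (hn : Module.finrank (adjoin Ω {x, y}) M = n) (h : IsCrv Ω 8 n x y w) :
    ∃ n', n' ∣ n ∧ LstN Ω R M n' := by
  obtain ⟨h1, h2, -⟩ := toB x y w hR hM
  have h3 : LstM Ω (adjoin Ω {x, y} : IntermediateField Ω M) M :=
    lstM_of_curve x y w (fun r => r.2) hM (by rwa [← hn] at h)
  obtain ⟨n', h4, h5⟩ := LstN.of_lstM h3
  exact ⟨n', hn ▸ h4, h5.of_le fun r => ⟨⟨_, hR r⟩, rfl⟩⟩

end Pool.Agent.Helper48.TT
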