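import Pool.Agent.Helper48.TT.Side

/-! Project TT: the two sides are put together. -/

set_option autoImplicit false

namespace Pool.Agent.Helper48.TT

open IntermediateField TensorProduct Pool.Agent.Helper75.QC

/-- The elements `w ⊗ w'`, where `G` acts on `w` by `α` and on `w'` by `α'`. -/
def pure2 {L G V V' : Type} [Field L] [AddCommGroup V] [Module L V] [AddCommGroup V']
    [Module L V'] (ρ : G → V →ₗ[L] V) (ρ' : G → V' →ₗ[L] V') (α α' : G → L) :
    Set (V ⊗[L] V') :=
  {x | ∃ (w : V) (w' : V'), (∀ γ, ρ γ w = α γ • w) ∧ (∀ γ, ρ' γ w' = α' γ • w') ∧ x = w ⊗ₜ w'}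

variable {Ω L G : Type} [Field Ω] [Field L] (T : PairTheory Ω L G)

/-- What is known about one side. -/
structure IsSide {K₁ M : Type} [Field K₁] [Algebra Ω K₁] [Field M] [Algebra Ω M]
    (s : T.H 2 K₁ →ₗ[L] T.H 2 M) (α : G → L) (C D : Type) [Field C] [Algebra Ω C] [Field D]
    [Algebra Ω D] (z : T.H 1 C) (g : T.H 1 D →ₗ[L] T.H 2 M ⊗[L] T.H 1 C)
    (d : T.H 2 K₁ →ₗ[L] T.H 1 D) (φ : T.H 1 C →ₗ[L] L) : Prop where
  fg : (⊤ : IntermediateField Ω D).FG
  corr : g ∈ T.corr M C D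
  one : φ z = 1
  form : ∀ γ y, φ (T.act 1 C γ y) = α γ * φ y
  lift : ∀ t, g (d t) = s t ⊗ₜ z
  equiv : ∀ γ t, T.act 1 D γ (d t) = (T.tate γ * α γ) • d (T.act 2 K₁ γ t)
  zero : ∀ w : T.H 1 D, (∀ γ, T.act 1 D γ w = α γ • w) →
    TensorProduct.rid L _ (φ.lTensor _ (g w)) = 0

/-- **Two sides.** -/
theorem core {K₁ M C D K₁' M' C' D' : Type} [Field K₁] [Algebra Ω K₁] [Field M] [Algebra Ω M]
    [Field C] [Algebra Ω C] [Field D] [Algebra Ω D] [Field K₁'] [Algebra Ω K₁'] [Field M']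
    [Algebra Ω M'] [Field C'] [Algebra Ω C'] [Field D'] [Algebra Ω D']
    {s : T.H 2 K₁ →ₗ[L] T.H 2 M} {α : G → L} {z : T.H 1 C}
    {g : T.H 1 D →ₗ[L] T.H 2 M ⊗[L] T.H 1 C} {d : T.H 2 K₁ →ₗ[L] T.H 1 D} {φ : T.H 1 C →ₗ[L] L}
    (h : IsSide T s α C D z g d φ)
    {s' : T.H 2 K₁' →ₗ[L] T.H 2 M'} {α' : G → L} {z' : T.H 1 C'}
    {g' : T.H 1 D' →ₗ[L] T.H 2 M' ⊗[L] T.H 1 C'} {d' : T.H 2 K₁' →ₗ[L] T.H 1 D'}
    {φ' : T.H 1 C' →ₗ[L] L} (h' : IsSide T s' α' C' D' z' g' d' φ')
    (hcm : ∀ r : T.H 1 D ⊗[L] T.H 1 D',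
      (∀ γ, TensorProduct.map (T.act 1 D γ) (T.act 1 D' γ) r = (α γ * α' γ) • r) →
      (∀ γ, T.tate γ * (α γ * α' γ) = 1) ∨
        r ∈ Submodule.span L (pure2 (T.act 1 D) (T.act 1 D') α α'))
    (t : T.H 2 K₁ ⊗[L] T.H 2 K₁')
    (ht : ∀ γ, T.tate γ ^ 2 • TensorProduct.map (T.act 2 K₁ γ) (T.act 2 K₁' γ) t = t) :
    TensorProduct.map s s' t ∈ T.cycles M M' := by
  obtain ⟨r, hr⟩ : ∃ r, r = TensorProduct.map d d' t := ⟨_, rfl⟩
  -- the action on `r`
  have hact : ∀ γ, TensorProduct.map (T.act 1 D γ) (T.act 1 D' γ) r = (α γ * α' γ) • r := by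
    intro γ
    have e1 : ∀ u : T.H 2 K₁ ⊗[L] T.H 2 K₁',
        TensorProduct.map (T.act 1 D γ) (T.act 1 D' γ) (TensorProduct.map d d' u) =
        (α γ * α' γ) • TensorProduct.map d d'
          (T.tate γ ^ 2 • TensorProduct.map (T.act 2 K₁ γ) (T.act 2 K₁' γ) u) := by
      intro u
      induction u using TensorProduct.induction_on with
      | zero => simp
      | add u u' hu hu' => simp only [map_add, smul_add, hu, hu']
      | tmul p q =>
        rw [map_tmul, map_tmul, map_tmul, map_smul, map_tmul, h.equiv, h'.equiv, smul_tmul_smul,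
          smul_smul]
        congr 1
        ring
    rw [hr, e1, ht]
  rcases hcm r hact with hc | hc
  · -- the Tate case
    let q : T.H 1 C ⊗[L] T.H 1 C' →ₗ[L] L :=
      (TensorProduct.lid L L).toLinearMap ∘ₗ TensorProduct.map φ φ'
    have hq : ∀ y y', q (y ⊗ₜ y') = φ y * φ' y' := fun y y' => by
      show TensorProduct.lid L L (TensorProduct.map φ φ' (y ⊗ₜ y')) = _
      rw [map_tmul, lid_tmul, smul_eq_mul]
    have h1 := T.pair M C D M' C' D' g h.corr g' h'.corr r q (fun γ => by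
      rw [hact, smul_smul, hc, one_smul]) (fun γ u => by
      induction u using TensorProduct.induction_on with
      | zero => simp
      | add u u' hu hu' => rw [map_add, map_add, smul_add, hu, hu', map_add]
      | tmul y y' =>
        rw [map_tmul, hq, hq, h.form, h'.form, smul_eq_mul]
        linear_combination (φ y * φ' y') * hc γ)
    have h2 : ∀ u : T.H 2 K₁ ⊗[L] T.H 2 K₁',
        contr q (TensorProduct.map g g' (TensorProduct.map d d' u)) = TensorProduct.map s s' u := by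
      intro u
      induction u using TensorProduct.induction_on with
      | zero => simp
      | add u u' hu hu' => simp only [map_add, hu, hu']
      | tmul p p' =>
        rw [map_tmul, map_tmul, h.lift, h'.lift, contr_tmul, hq, h.one, h'.one, mul_one, one_smul,
          map_tmul]
    rw [← h2, ← hr]
    exact h1
  · -- the other case
    let f : T.H 1 D →ₗ[L] T.H 2 M :=
      (TensorProduct.rid L (T.H 2 M)).toLinearMap ∘ₗ φ.lTensor (T.H 2 M) ∘ₗ g
    let f' : T.H 1 D' →ₗ[L] T.H 2 M' :=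
      (TensorProduct.rid L (T.H 2 M')).toLinearMap ∘ₗ φ'.lTensor (T.H 2 M') ∘ₗ g'
    have hf : ∀ u, f (d u) = s u := by
      intro u
      show TensorProduct.rid L (T.H 2 M) (φ.lTensor (T.H 2 M) (g (d u))) = s u
      rw [h.lift, LinearMap.lTensor_tmul, h.one, rid_tmul, one_smul]
    have hf' : ∀ u, f' (d' u) = s' u := by
      intro u
      show TensorProduct.rid L (T.H 2 M') (φ'.lTensor (T.H 2 M') (g' (d' u))) = s' u
      rw [h'.lift, LinearMap.lTensor_tmul, h'.one, rid_tmul, one_smul]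
    have h1 : TensorProduct.map f f' r = 0 := by
      have h2 : Submodule.span L (pure2 (T.act 1 D) (T.act 1 D') α α') ≤
          LinearMap.ker (TensorProduct.map f f') := by
        rw [Submodule.span_le]
        rintro _ ⟨w, w', hw, -, rfl⟩
        rw [SetLike.mem_coe, LinearMap.mem_ker, map_tmul]
        have h3 : f w = 0 := h.zero w hw
        rw [h3, zero_tmul]
      exact h2 hc
    have h2 : ∀ u : T.H 2 K₁ ⊗[L] T.H 2 K₁',
        TensorProduct.map f f' (TensorProduct.map d d' u) = TensorProduct.map s s' u := by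
      intro u
      induction u using TensorProduct.induction_on with
      | zero => simp
      | add u u' hu hu' => simp only [map_add, hu, hu']
      | tmul p p' => rw [map_tmul, map_tmul, hf, hf', map_tmul]
    rw [← h2, ← hr, h1]
    exact Submodule.zero_mem _

end Pool.Agent.Helper48.TT
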