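import Pool.Agent.Helper15.GD.Base

/-!
# Tate classes of codimension two on the products of two surfaces: the axioms

`Ω` is an algebraic closure of a number field or of a finite field `F`, and `G` the identity
component of the Zariski closure of the image of `Gal(Ω/F)` in the product of the groups
`GL(H^i(K))`: a vector is fixed by `G` if and only if it is fixed by an open subgroup of
`Gal(Ω/F)`.
-/

set_option autoImplicit false

namespace Pool.Agent.Helper48.TT

open IntermediateField CategoryTheory MonoidalCategory Pool.Agent.Helper15.GD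

/-- The action of `G` on the spaces `H^i(K)`, and on the Tate module `L(1)` (`tate`, the cyclotomic
character); the homomorphisms `H^1(D) → H^2(K) ⊗ H^1(C)` which are linear combinations of
algebraic correspondences; the space `cyc K K'` of the cycles of codimension two on the product of
the surfaces with function fields `K` and `K'`, with the classes in `H^2(K) ⊗ H^2(K')`. -/
structure TateCoh (Ω L G : Type) [Field Ω] [Field L] extends Coh Ω L where
  act : ∀ (i : ℕ) (K : Ext Ω), G → (H i K ⟶ H i K)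
  tate : G → L
  corr : ∀ K C D : Ext Ω, Set (H 1 D ⟶ H 2 K ⊗ H 1 C)
  cyc : Ext Ω → Ext Ω → ModuleCat.{0} L
  cl : ∀ K K' : Ext Ω, cyc K K' ⟶ H 2 K ⊗ H 2 K'

section

variable {L : Type} [Field L]

/-- `g` is the multiple of `f` by `c`. -/
def IsMul {V W : ModuleCat.{0} L} (c : L) (f g : V ⟶ W) : Prop :=
  c • f = g

/-- The image of `t` is contained in the image of `f`. -/
def Lifts {U V W : ModuleCat.{0} L} (t : U ⟶ W) (f : V ⟶ W) : Prop :=
  ∃ s : U ⟶ V, s ≫ f = t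

/-- the contraction over `W` of `g ∘ A`, evaluated at the linear form `ξ` -/
noncomputable def contr₁ {U V W : ModuleCat.{0} L} (g : U ⟶ V ⊗ W) (A : W ⟶ U)
    (ξ : V ⟶ 𝟙_ (ModuleCat.{0} L)) : L :=
  LinearMap.trace L W (A ≫ g ≫ (ξ ▷ W) ≫ (λ_ W).hom).hom

/-- the contraction with the bilinear form `q` of the image of `r` under `g ⊗ g'` -/
noncomputable def contr₂ {U V W U' V' W' : ModuleCat.{0} L} (g : U ⟶ V ⊗ W)
    (g' : U' ⟶ V' ⊗ W') (r : 𝟙_ (ModuleCat.{0} L) ⟶ U ⊗ U')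
    (q : W ⊗ W' ⟶ 𝟙_ (ModuleCat.{0} L)) : 𝟙_ (ModuleCat.{0} L) ⟶ V ⊗ V' :=
  r ≫ (g ⊗ₘ g') ≫ tensorμ V W V' W' ≫ ((V ⊗ V') ◁ q) ≫ (ρ_ (V ⊗ V')).hom

end

variable {Ω L G : Type} [Field Ω] [Field L]

/-- The homomorphisms induced by rational maps are equivariant. -/
def TateCoh.Equivariant (T : TateCoh Ω L G) : Prop :=
  ∀ (i : ℕ) (K K' : Ext Ω) (g : K.Hom K') (γ : G),
    T.act i K γ ≫ T.map i g = T.map i g ≫ T.act i K' γ

/-- The eigenspaces of the automorphism `u ↦ ζ u` of the curve `u ^ n = v ^ α * (1 - v) ^ β` are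
lines. -/
def TateCoh.Lines (T : TateCoh Ω L G) : Prop :=
  ∀ (C : Ext Ω) (n α β : ℕ) (ζ : Ω) (v u : C) (σ : C.Hom C), IsCurve C n α β ζ v u σ →
    ∀ (ξ : L) (z z' : 𝟙_ (ModuleCat.{0} L) ⟶ T.H 1 C), z ≠ 0 → IsMul ξ z (z ≫ T.map 1 σ) →
      IsMul ξ z' (z' ≫ T.map 1 σ) → ∃ c : L, IsMul c z z'

/-- The subspace `P` is stable under the action of `G`. -/
def TateCoh.Stable (T : TateCoh Ω L G) {K : Ext Ω} (P : Submodule L (T.H 1 K)) : Prop :=
  ∀ γ, ∀ t ∈ P, (T.act 1 K γ).hom t ∈ P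

/-- `H^1(K)` is semisimple (Weil, Faltings). -/
def TateCoh.Semisimple (T : TateCoh Ω L G) : Prop :=
  ∀ K : Ext Ω, K.FG → ∀ P, T.Stable (K := K) P → ∃ Q, T.Stable Q ∧ IsCompl P Q

/-- Let `X` be a surface and `C` a curve. The classes in `H^2(X) ⊗ H^1(C)` which vanish at the
generic point of `X × C` are supported on a divisor: they are in the image of the first cohomology
of a variety `D` under a correspondence `g`. -/
def TateCoh.Gysin (T : TateCoh Ω L G) : Prop :=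
  ∀ (K C N : Ext Ω) (a : K.Hom N) (b : C.Hom N), IsProd a b →
    ∃ D : Ext Ω, D.FG ∧ ∃ g ∈ T.corr K C D,
      (∀ γ, IsMul (T.tate γ) (g ≫ (T.act 2 K γ ⊗ₘ T.act 1 C γ)) (T.act 1 D γ ≫ g)) ∧
      ∀ (V : ModuleCat.{0} L) (t : V ⟶ _), t ≫ T.cross a b = 0 → Lifts t g

/-- An equivariant homomorphism `A : H^1(C) → H^1(D)` is a linear combination of algebraic
correspondences (Tate, Faltings), so the contraction over `C` of `g ∘ A` is a linear combination of
classes of curves on the surface with function field `K`, which vanish at its generic point. -/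
def TateCoh.Divisors (T : TateCoh Ω L G) : Prop :=
  ∀ (K C D : Ext Ω), ∀ g ∈ T.corr K C D, ∀ A : T.H 1 C ⟶ T.H 1 D,
    (∀ γ, A ≫ T.act 1 D γ = T.act 1 C γ ≫ A) → ∀ ξ, contr₁ g A ξ = 0

/-- A Tate class `r` in `H^1(D) ⊗ H^1(D')` and an invariant form `q` on `H^1(C) ⊗ H^1(C')` with
values in `L(-1)` are linear combinations of classes of divisors (Tate, Faltings), so the
contraction with `q` of the image of `r` is the class of a cycle. -/
def TateCoh.Pairs (T : TateCoh Ω L G) : Prop :=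
  ∀ K C D K' C' D' : Ext Ω, ∀ g ∈ T.corr K C D, ∀ g' ∈ T.corr K' C' D', ∀ r q,
    (∀ γ, IsMul (T.tate γ) (r ≫ (T.act 1 D γ ⊗ₘ T.act 1 D' γ)) r) →
    (∀ γ, IsMul (T.tate γ) ((T.act 1 C γ ⊗ₘ T.act 1 C' γ) ≫ q) q) →
    Lifts (contr₂ g g' r q) (T.cl K K')

/-- inverse and direct images of cycles -/
def TateCoh.Images (T : TateCoh Ω L G) : Prop :=
  ∀ (K E K' E' : Ext Ω) (j : K.Hom E) (j' : K'.Hom E'), j.IsAlgebraic → j'.IsAlgebraic →
    ∀ t : 𝟙_ (ModuleCat.{0} L) ⟶ _,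
      Lifts (t ≫ (T.map 2 j ⊗ₘ T.map 2 j')) (T.cl E E') ↔ Lifts t (T.cl K K')

/-- `z` is an eigenvector of the automorphism `u ↦ ζ u` of a curve `u ^ n = v ^ α * (1 - v) ^ β`,
for an eigenvalue of order at least three which divides `N`, and `G` acts on it by `a`. -/
def TateCoh.IsEigen (T : TateCoh Ω L G) (N : ℕ) {C : Ext Ω}
    (z : 𝟙_ (ModuleCat.{0} L) ⟶ T.H 1 C) (a : G → L) : Prop :=
  ∃ (n α β : ℕ) (ζ : Ω) (v u : C) (σ : C.Hom C) (ξ : L), IsCurve C n α β ζ v u σ ∧ ξ ^ N = 1 ∧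
    ξ ^ 2 ≠ 1 ∧ z ≠ 0 ∧ IsMul ξ z (z ≫ T.map 1 σ) ∧ ∀ γ, IsMul (a γ) z (z ≫ T.act 1 C γ)

/-- For `N = 4` and `N = 6` the group `G` acts on the eigenvectors `z` of order dividing `N` by one
of two characters `θ`, `θ'` with `θ * θ' * tate = 1`, which belong to the elliptic curve with complex
multiplication by the roots of unity of order `N`. If `r` is a class in `H^1(D) ⊗ H^1(D')` with the
character `θ ^ 2`, then `r` is contained in `V ⊗ V'`, where `G` acts on `V` and `V'` by `θ` (the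
weights of the Hodge–Tate cocharacters on `H^1` are zero and one; the valuations of the eigenvalues
of the Frobenius on `H^1` are between zero and one). -/
def TateCoh.CM (T : TateCoh Ω L G) (N : ℕ) : Prop :=
  ∀ (C C' : Ext Ω) (z : 𝟙_ (ModuleCat.{0} L) ⟶ T.H 1 C) (z' : 𝟙_ (ModuleCat.{0} L) ⟶ T.H 1 C')
    (a a' : G → L), T.IsEigen N z a → T.IsEigen N z' a' → ∀ D D' : Ext Ω, D.FG → D'.FG →
    ∀ r : 𝟙_ (ModuleCat.{0} L) ⟶ T.H 1 D ⊗ T.H 1 D',
      (∀ γ, IsMul (a γ * a' γ) r (r ≫ (T.act 1 D γ ⊗ₘ T.act 1 D' γ))) →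
      (∀ γ, a γ * a' γ * T.tate γ = 1) ∨
        ∃ (V V' : ModuleCat.{0} L) (w : V ⟶ T.H 1 D) (w' : V' ⟶ T.H 1 D'),
          (∀ γ, IsMul (a γ) w (w ≫ T.act 1 D γ)) ∧ (∀ γ, IsMul (a' γ) w' (w' ≫ T.act 1 D' γ)) ∧
          Lifts r (w ⊗ₘ w')

/-- The axioms. -/
structure TateCoh.IsTheory (T : TateCoh Ω L G) (N : ℕ) : Prop where
  base : T.IsBase
  equivariant : T.Equivariant
  lines : T.Lines
  semisimple : T.Semisimple
  gysin : T.Gysin
  divisors : T.Divisors
  pairs : T.Pairs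
  images : T.Images
  cm : T.CM N

end Pool.Agent.Helper48.TT
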