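import Pool.Agent.Helper48.TT.MainM

/-! Project TT: the input from the list, without the group. -/

set_option autoImplicit false

namespace Pool.Agent.Helper48.TT

open IntermediateField TensorProduct Pool.Agent.Helper75.QC Pool.Agent.Helper75.WC
  Pool.Agent.Helper15.WC

variable {Ω L : Type} [Field Ω] [Field L]

/-- The values of `s` times the eigenvector `z` of the curve `C`, `u ^ n = v ^ α (1 - v) ^ β`,
vanish at the generic point. -/
structure IsPre (T : BaseTheory Ω L) (n : ℕ) {M V : Type} [Field M] [Algebra Ω M] [AddCommGroup V]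
    [Module L V] (s : V →ₗ[L] T.H 2 M) {C N : Type} [Field C] [Algebra Ω C] [Field N]
    [Algebra Ω N] (a : M →ₐ[Ω] N) (b : C →ₐ[Ω] N) (x y : M) (α β : ℕ) (ζ : Ω) (v u : C)
    (τ : C →ₐ[Ω] C) (ξ : L) (z : T.H 1 C) : Prop where
  fgM : (⊤ : IntermediateField Ω M).FG
  fgC : (⊤ : IntermediateField Ω C).FG
  algM : ∀ k : M, k ∈ Acl Ω {x, y}
  algC : ∀ k : C, k ∈ Acl Ω {v}
  trans : Transcendental a.fieldRange (b v)
  tame : (n : Ω) ≠ 0
  root : IsPrimitiveRoot ζ n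
  transC : Transcendental Ω v
  eq : u ^ n = v ^ α * (1 - v) ^ β
  gen : adjoin Ω {v, u} = ⊤
  fix : τ v = v
  mul : τ u = algebraMap Ω C ζ * u
  pow : ξ ^ n = 1
  prim : ∀ d : ℕ, ξ ^ d = 1 → n ∣ d
  sq : ξ ^ 2 ≠ 1
  ne : z ≠ 0
  eigen : T.map 1 τ z = ξ • z
  zero : ∀ t, T.cup N (T.map 2 a (s t)) (T.map 1 b z) = 0

/-- **The input for a cyclic cover.** -/
theorem exists_pre (T : BaseTheory Ω L) [IsAlgClosed Ω] [CharZero L] [IsAlgClosed L] {K : Type}
    [Field K] [Algebra Ω K] (R : IntermediateField Ω K) (M : IntermediateField R K)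
    [FiniteDimensional R M] {n : ℕ} (h : RowN T R M n) {V : Type} [AddCommGroup V] [Module L V]
    (s : V →ₗ[L] T.H 2 M) (c : (M ≃ₐ[R] M) → L)
    (hc : ∀ (g : M ≃ₐ[R] M) t, T.map 2 ((g : M →ₐ[R] M).restrictScalars Ω) (s t) = c g • s t)
    (hc1 : ∀ (g : M ≃ₐ[R] M) (d : ℕ), c g ^ d = 1 → g ^ d = 1) (hs0 : s ≠ 0) :
    ∃ (C N : Type) (_ : Field C) (_ : Algebra Ω C) (_ : Field N) (_ : Algebra Ω N)
      (a : M →ₐ[Ω] N) (b : C →ₐ[Ω] N) (x y : M) (α β : ℕ) (ζ : Ω) (v u : C) (τ : C →ₐ[Ω] C)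
      (ξ : L) (z : T.H 1 C), IsPre T n s a b x y α β ζ v u τ ξ z := by
  classical
  obtain ⟨α, β, x, y, w, hn, hn', hab, hR, hM, hdeg, hw0, hwm, huni, hexc⟩ := h
  obtain ⟨t₀, ht₀⟩ : ∃ t, s t ≠ 0 := by
    by_contra h
    push Not at h
    exact hs0 (LinearMap.ext h)
  have : NeZero (n : Ω) := ⟨hn'⟩
  obtain ⟨ζ, hζ⟩ : ∃ ζ : Ω, IsPrimitiveRoot ζ n :=
    HasEnoughRootsOfUnity.exists_primitiveRoot Ω n
  obtain ⟨σ, ξ, hσ, hσw, hξn, hξd, hξ⟩ := prim_kummerM T R M 2 hn hn'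
    hζ x y w hR hM hdeg hwm hw0 (s t₀) (fun g => ⟨c g, hc g t₀, hc1 g⟩) ht₀
  -- the same eigenvalue for all classes
  let σ' : M →ₐ[R] M := { toRingHom := (σ : M →+* M), commutes' := fun a => hσ _ (hR a) }
  let g₀ : M ≃ₐ[R] M := AlgEquiv.ofBijective σ' (Algebra.IsAlgebraic.algHom_bijective σ')
  have hg₀ : ((g₀ : M →ₐ[R] M).restrictScalars Ω) = σ := AlgHom.ext fun _ => rfl
  have hξ' : ∀ t, T.map 2 σ (s t) = ξ • s t := by
    have e1 : c g₀ = ξ := by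
      have e2 := hc g₀ t₀
      rw [hg₀, hξ] at e2
      have e3 : (ξ - c g₀) • s t₀ = 0 := by rw [sub_smul, e2, sub_self]
      exact (sub_eq_zero.1 ((smul_eq_zero.1 e3).resolve_right ht₀)).symm
    intro t
    have e2 := hc g₀ t
    rwa [hg₀, e1] at e2
  have hx : σ x = x := hσ _ (subset_adjoin _ _ (by simp))
  have hy : σ y = y := hσ _ (subset_adjoin _ _ (by simp))
  have hnex : ¬ (ξ ^ α = 1 ∨ ξ ^ β = 1 ∨ ξ ^ (α + β) = 1) := fun h =>
    ht₀ (hexc ζ σ hζ hx hy hσw ξ (s t₀) hξd hξn h hξ)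
  have hfg : (⊤ : IntermediateField Ω M).FG := by
    rw [← hM]
    exact fg_adjoin_of_finite (Set.toFinite _)
  have hxy : ∀ k : M, k ∈ Acl Ω {x, y} := by
    intro k
    have : FiniteDimensional (adjoin Ω {x, y}) M :=
      Module.finite_of_finrank_pos (by rw [hdeg]; exact hn)
    exact Algebra.IsAlgebraic.isAlgebraic k
  have hξ0 : ξ ≠ 0 := by
    rintro rfl
    rw [zero_pow hn.ne'] at hξn
    exact zero_ne_one hξn
  have hinv : ∀ j : ℕ, ξ ^ j ≠ 1 → ξ⁻¹ ^ j ≠ 1 := by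
    intro j hj h
    apply hj
    rwa [inv_pow, inv_eq_one] at h
  obtain ⟨C, N, iC, jC, iN, jN, v, u, a, b, hv, hu, hC, hbv, hNg, hsig, -, -⟩ :=
    Pool.Agent.Helper35.TD.exists_curve_ab (Ω := Ω) (α := α) (β := β) hn hab M
  obtain ⟨τ, hτ⟩ := hsig ζ hζ.pow_eq_one
  have hfinC : (⊤ : IntermediateField Ω C).FG := by
    rw [← hC]
    exact fg_adjoin_of_finite (Set.toFinite _)
  obtain ⟨z, hz0, hz⟩ := T.curve C n α β ζ v u τ hn' hζ hv hu hC hτ.1 hτ.2 ξ⁻¹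
    (by rw [inv_pow, hξn, inv_one]) (hinv _ fun h => hnex (Or.inl h))
    (hinv _ fun h => hnex (Or.inr (Or.inl h))) (hinv _ fun h => hnex (Or.inr (Or.inr h)))
  have huni' : ∀ z : T.H 3 (adjoin Ω {a x, a y, b v, b u / a w} : IntermediateField Ω N), z = 0 := by
    apply T.uniruled
    refine huni N a (b v) (b u / a w) hbv ?_
    have h2 : b u ^ n = b v ^ α * (1 - b v) ^ β := by
      rw [← map_pow, hu, map_mul, map_pow, map_pow, map_sub, map_one]
    have h3 : a w ≠ 0 := fun h => hw0 (a.injective (h.trans (map_zero a).symm))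
    rw [div_pow, h2, div_mul_cancel₀ _ (pow_ne_zero _ h3)]
  refine ⟨C, N, iC, jC, iN, jN, a, b, x, y, α, β, ζ, v, u, τ, ξ⁻¹, z,
    ⟨hfg, hfinC, hxy, mem_Acl_of hn v u hu hC, hbv, hn', hζ, hv, hu, hC, hτ.1, hτ.2,
      by rw [inv_pow, hξn, inv_one], fun d hd => ?_, ?_, hz0, hz, fun t =>
      cross_zero T hn hn' hζ a b x y w v u hM hC hNg hw0 hwm σ
        ⟨hx, hy, hσw⟩ τ hτ huni' ξ hξ0 (s t) (hξ' t) z hz⟩⟩
  · by_contra h
    exact hinv d (fun h1 => h (hξd d h1)) hd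
  · -- `n` does not divide `2`
    apply hinv
    intro h
    have h8 := hξd 2 h
    have h9 : n = 1 ∨ n = 2 := by
      have := Nat.le_of_dvd (by norm_num) h8
      omega
    rcases h9 with rfl | rfl
    · apply hnex
      rw [pow_one] at hξn
      exact Or.inl (by rw [hξn, one_pow])
    · have h10 : α % 2 = 0 ∨ β % 2 = 0 ∨ (α + β) % 2 = 0 := by omega
      have h11 : ∀ k : ℕ, k % 2 = 0 → ξ ^ k = 1 := by
        intro k hk
        obtain ⟨m, rfl⟩ := Nat.dvd_of_mod_eq_zero hk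
        rw [pow_mul, h, one_pow]
      rcases h10 with h12 | h12 | h12
      · exact hnex (Or.inl (h11 _ h12))
      · exact hnex (Or.inr (Or.inl (h11 _ h12)))
      · exact hnex (Or.inr (Or.inr (h11 _ h12)))

/-- **The input for an abelian cover.** `K / R` is finite and abelian, and for the cyclic
subextensions `M / R` the surface is uniruled or in the list (`RowN`). -/
theorem cover_pre (T : BaseTheory Ω L) [IsAlgClosed Ω] [CharZero L] [IsAlgClosed L] {K : Type}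
    [Field K] [Algebra Ω K] (R : IntermediateField Ω K) [FiniteDimensional R K] [IsGalois R K]
    (hab : ∀ g h : K ≃ₐ[R] K, g * h = h * g) (P : ℕ → Prop)
    (hM : ∀ M : IntermediateField R K, IsCyclic (M ≃ₐ[R] M) →
      Uniruled Ω M 2 ∨ ∃ n, P n ∧ RowN T R M n) :
    ∃ (m : ℕ) (M : Fin m → IntermediateField R K) (s : ∀ i, T.H 2 K →ₗ[L] T.H 2 (M i)),
      (∀ t, ∑ i, T.map 2 (incl R (M i)) (s i t) = t) ∧
      (∀ i (φ : T.H 2 K →ₗ[L] T.H 2 K) (ψ : T.H 2 (M i) →ₗ[L] T.H 2 (M i)),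
        (∀ (h : K →ₐ[Ω] K) t, T.map 2 h (φ t) = φ (T.map 2 h t)) →
        (∀ t, T.map 2 (incl R (M i)) (ψ t) = φ (T.map 2 (incl R (M i)) t)) →
        ∀ t, ψ (s i t) = s i (φ t)) ∧
      ∀ i, s i = 0 ∨ ∃ n, P n ∧
        ∃ (C N : Type) (_ : Field C) (_ : Algebra Ω C) (_ : Field N) (_ : Algebra Ω N)
          (a : M i →ₐ[Ω] N) (b : C →ₐ[Ω] N) (x y : M i) (α β : ℕ) (ζ : Ω) (v u : C)
          (τ : C →ₐ[Ω] C) (ξ : L) (z : T.H 1 C), IsPre T n (s i) a b x y α β ζ v u τ ξ z := by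
  classical
  obtain ⟨m, χ, E, hsum, hE, hcomm⟩ := exists_projectors hab (galRep T R 2)
  have hl := fun i => exists_lift T R 2 (χ i) (E i) (fun g t => hE i g t)
  choose M hcyc s c hs hc hc1 using hl
  refine ⟨m, M, s, fun t => ?_, fun i φ ψ hφ hψ t => ?_, fun i => ?_⟩
  · exact (Finset.sum_congr rfl fun i _ => hs i t).trans (hsum t)
  · apply T.inj 2 _ (incl_alg R (M i))
    rw [hψ, hs, hs]
    exact hcomm i φ (fun g v => (hφ _ v).symm) t
  · by_cases h0 : s i = 0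
    · exact Or.inl h0
    rcases hM (M i) (hcyc i) with h | ⟨n, hn, h⟩
    · exact Or.inl (LinearMap.ext fun t => T.uniruled 2 (M i) h (s i t))
    · exact Or.inr ⟨n, hn, exists_pre T R (M i) h (s i) (c i) (hc i) (hc1 i) h0⟩

end Pool.Agent.Helper48.TT
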