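import Pool.Agent.Helper48.TT.Rows

/-! Project TT: the projectors of the Galois group. -/

set_option autoImplicit false

namespace Pool.Agent.Helper48.TT

open IntermediateField TensorProduct Pool.Agent.Helper75.QC Pool.Agent.Helper75.WC
  Pool.Agent.Helper15.WC

/-- The projectors of a representation of a finite commutative group. -/
theorem exists_projectors {L G V : Type} [Field L] [CharZero L] [IsAlgClosed L] [Group G] [Finite G]
    (hab : ∀ g h : G, g * h = h * g) [AddCommGroup V] [Module L V] (ρ : G →* Module.End L V) :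
    ∃ (m : ℕ) (χ : Fin m → (G →* Lˣ)) (E : Fin m → V →ₗ[L] V),
      (∀ v, ∑ i, E i v = v) ∧ (∀ i g v, ρ g (E i v) = (χ i g : L) • E i v) ∧
      ∀ (i : Fin m) (a : V →ₗ[L] V), (∀ g v, a (ρ g v) = ρ g (a v)) →
        ∀ v, a (E i v) = E i (a v) := by
  classical
  let _ : CommGroup G := { (inferInstance : Group G) with mul_comm := hab }
  have : Fintype G := Fintype.ofFinite G
  have : NeZero ((Monoid.exponent G : ℕ) : L) :=
    ⟨by exact_mod_cast Monoid.exponent_ne_zero_of_finite⟩
  have : Finite (G →* Lˣ) :=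
    Finite.of_equiv G
      (CommGroup.monoidHom_mulEquiv_of_hasEnoughRootsOfUnity G L).some.toEquiv.symm
  have : Fintype (G →* Lˣ) := Fintype.ofFinite _
  have hcard : Fintype.card (G →* Lˣ) = Fintype.card G := by
    rw [← Nat.card_eq_fintype_card, ← Nat.card_eq_fintype_card]
    exact CommGroup.card_monoidHom_of_hasEnoughRootsOfUnity G L
  have hG : ((Fintype.card G : ℕ) : L) ≠ 0 := by exact_mod_cast Fintype.card_ne_zero
  -- the projectors
  let e : (G →* Lˣ) → V →ₗ[L] V := fun χ =>
    ((Fintype.card G : ℕ) : L)⁻¹ • ∑ g : G, (((χ g)⁻¹ : Lˣ) : L) • ρ g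
  have he0 : ∀ χ v, e χ v = ((Fintype.card G : ℕ) : L)⁻¹ •
      ∑ g : G, (((χ g)⁻¹ : Lˣ) : L) • ρ g v := by
    intro χ v
    show (((Fintype.card G : ℕ) : L)⁻¹ • ∑ g : G, (((χ g)⁻¹ : Lˣ) : L) • ρ g) v = _
    rw [LinearMap.smul_apply, LinearMap.sum_apply]
    rfl
  have he : ∀ χ g v, ρ g (e χ v) = (χ g : L) • e χ v := by
    intro χ g v
    rw [he0, map_smul, map_sum, smul_comm ((χ g : Lˣ) : L)]
    congr 1
    rw [Finset.smul_sum]
    refine Fintype.sum_equiv (Equiv.mulLeft g) _ _ fun h => ?_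
    rw [Equiv.coe_mulLeft, map_mul, map_mul, Module.End.mul_apply, mul_inv, map_smul, smul_smul]
    congr 1
    push_cast
    rw [← mul_assoc, mul_inv_cancel₀ (Units.ne_zero _), one_mul]
  have hsum : ∀ v, ∑ χ : G →* Lˣ, e χ v = v := by
    intro v
    simp only [he0]
    rw [← Finset.smul_sum, Finset.sum_comm]
    have h1 : ∀ g : G, ∑ χ : G →* Lˣ, (((χ g)⁻¹ : Lˣ) : L) • ρ g v =
        (if g = 1 then ((Fintype.card G : ℕ) : L) else 0) • ρ g v := by
      intro g
      rw [← Finset.sum_smul]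
      congr 1
      split_ifs with h
      · subst h
        simp [hcard]
      · obtain ⟨ψ, hψ⟩ := CommGroup.exists_apply_ne_one_of_hasEnoughRootsOfUnity G L h
        have h3 : (∑ χ : G →* Lˣ, (((χ g)⁻¹ : Lˣ) : L)) =
            (((ψ g)⁻¹ : Lˣ) : L) * ∑ χ : G →* Lˣ, (((χ g)⁻¹ : Lˣ) : L) := by
          rw [Finset.mul_sum]
          refine (Fintype.sum_equiv (Equiv.mulLeft ψ) _ _ fun χ => ?_).symm
          rw [Equiv.coe_mulLeft, MonoidHom.mul_apply, mul_inv, Units.val_mul]
        have h4 : ((((ψ g)⁻¹ : Lˣ) : L) - 1) * ∑ χ : G →* Lˣ, (((χ g)⁻¹ : Lˣ) : L) = 0 := by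
          rw [sub_mul, one_mul, ← h3, sub_self]
        rcases mul_eq_zero.1 h4 with h5 | h5
        · exfalso
          apply hψ
          have h6 : ((ψ g)⁻¹ : Lˣ) = 1 := Units.ext (sub_eq_zero.1 h5)
          exact inv_eq_one.1 h6
        · exact h5
    rw [Finset.sum_congr rfl fun g _ => h1 g, Finset.sum_eq_single (1 : G)]
    · rw [if_pos rfl, map_one, Module.End.one_apply, smul_smul, inv_mul_cancel₀ hG, one_smul]
    · intro g _ hg
      rw [if_neg hg, zero_smul]
    · intro h
      exact absurd (Finset.mem_univ _) h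
  let E := Fintype.equivFin (G →* Lˣ)
  refine ⟨Fintype.card (G →* Lˣ), fun i => E.symm i, fun i => e (E.symm i), fun v => ?_,
    fun i g v => he _ g v, fun i a ha v => ?_⟩
  · have h1 := Equiv.sum_comp E.symm (fun χ => e χ v)
    exact h1.trans (hsum v)
  · rw [he0, he0, map_smul, map_sum]
    congr 1
    refine Finset.sum_congr rfl fun g _ => ?_
    rw [map_smul, ha]

variable {Ω L K : Type} [Field Ω] [Field L] [Field K] [Algebra Ω K]

theorem incl_alg (R : IntermediateField Ω K) (M : IntermediateField R K) [FiniteDimensional R K]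
    (k : K) : IsAlgebraic (incl R M).fieldRange k := by
  have h2 : IsAlgebraic M k := Algebra.IsAlgebraic.isAlgebraic k
  obtain ⟨p, hp0, hp⟩ := h2
  let e : M →+* (incl R M).fieldRange := (incl R M).rangeRestrict.toRingHom
  refine ⟨p.map e, ?_, ?_⟩
  · rw [Ne, Polynomial.map_eq_zero_iff e.injective]
    exact hp0
  · rw [Polynomial.aeval_def, Polynomial.eval₂_map]
    exact hp

/-- A projector comes from the cohomology of the fixed field of the kernel of the character. -/
theorem exists_lift (T : BaseTheory Ω L) (R : IntermediateField Ω K) [FiniteDimensional R K]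
    [IsGalois R K] (r : ℕ) (χ : (K ≃ₐ[R] K) →* Lˣ) (E : T.H r K →ₗ[L] T.H r K)
    (hE : ∀ g t, galRep T R r g (E t) = (χ g : L) • E t) :
    ∃ M : IntermediateField R K, IsCyclic (M ≃ₐ[R] M) ∧
      ∃ (s : T.H r K →ₗ[L] T.H r M) (c : (M ≃ₐ[R] M) → L),
        (∀ t, T.map r (incl R M) (s t) = E t) ∧
        (∀ (g : M ≃ₐ[R] M) t, T.map r ((g : M →ₐ[R] M).restrictScalars Ω) (s t) = c g • s t) ∧
        ∀ (g : M ≃ₐ[R] M) (d : ℕ), c g ^ d = 1 → g ^ d = 1 := by
  classical
  have hN : Normal R (fixedField χ.ker : IntermediateField R K) := inferInstance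
  obtain ⟨M, hM⟩ : ∃ M : IntermediateField R K, M = fixedField χ.ker := ⟨_, rfl⟩
  have hr : ∀ t, E t ∈ LinearMap.range (T.map r (incl R M)) := fun t => by
    rw [hM]
    exact (eigen_cyclic T R r χ (E t) (fun g => hE g t)).2
  have hcyc : IsCyclic (M ≃ₐ[R] M) := by
    rw [hM]
    exact (eigen_cyclic T R r χ 0 (fun g => by rw [map_zero, smul_zero])).1
  rw [← hM] at hN
  have hinj : Function.Injective (T.map r (incl R M)) := T.inj r _ (incl_alg R M)
  let e := LinearEquiv.ofInjective (T.map r (incl R M)) hinj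
  let s : T.H r K →ₗ[L] T.H r M := e.symm.toLinearMap ∘ₗ E.codRestrict _ hr
  have hs : ∀ t, T.map r (incl R M) (s t) = E t := by
    intro t
    have h1 : e (s t) = E.codRestrict _ hr t := e.apply_symm_apply _
    exact congrArg Subtype.val h1
  have hsurj := AlgEquiv.restrictNormalHom_surjective (F := R) (K₁ := M) K
  choose lift hlift using hsurj
  have hcomm : ∀ (g' : M ≃ₐ[R] M) (x : M), ((g' x : M) : K) = lift g' x := by
    intro g' x
    conv_lhs => rw [← hlift g']
    exact AlgEquiv.restrictNormal_commutes (lift g') _ x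
  refine ⟨M, hcyc, s, fun g' => (χ (lift g') : L), hs, fun g' t => ?_, fun g' d hd => ?_⟩
  · apply hinj
    have e1 : T.map r (incl R M) (T.map r ((g' : M →ₐ[R] M).restrictScalars Ω) (s t)) =
        T.map r ((incl R M).comp ((g' : M →ₐ[R] M).restrictScalars Ω)) (s t) :=
      (LinearMap.congr_fun (T.map_comp r _ _) (s t)).symm
    have e2 : (incl R M).comp ((g' : M →ₐ[R] M).restrictScalars Ω) =
        (((lift g' : K ≃ₐ[R] K) : K →ₐ[R] K).restrictScalars Ω).comp (incl R M) := by
      ext x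
      exact hcomm g' x
    have e3 : T.map r ((((lift g' : K ≃ₐ[R] K) : K →ₐ[R] K).restrictScalars Ω).comp (incl R M))
        (s t) = T.map r (((lift g' : K ≃ₐ[R] K) : K →ₐ[R] K).restrictScalars Ω)
          (T.map r (incl R M) (s t)) :=
      LinearMap.congr_fun (T.map_comp r _ _) (s t)
    rw [e1, e2, e3, hs, map_smul, hs]
    exact hE _ t
  · have h2 : (lift g') ^ d ∈ χ.ker := by
      rw [MonoidHom.mem_ker, map_pow]
      exact Units.ext (by rw [Units.val_pow_eq_pow_val, hd, Units.val_one])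
    have h3 : ∀ x : M, ∀ k : ℕ, (((g' ^ k) x : M) : K) = (lift g' ^ k) x := by
      intro x k
      induction k generalizing x with
      | zero => rfl
      | succ k ih =>
        rw [pow_succ, pow_succ, AlgEquiv.mul_apply, AlgEquiv.mul_apply, ih, hcomm]
    refine AlgEquiv.ext fun x => Subtype.ext ?_
    rw [h3 x d]
    have h4 : (x : K) ∈ fixedField χ.ker := by
      rw [← hM]
      exact x.2
    exact h4 ⟨lift g' ^ d, h2⟩

end Pool.Agent.Helper48.TT
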