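import Pool.Agent.Helper48.TT.Core
import Pool.Agent.Helper15.WC.Kummer
import Pool.Agent.Helper35.WC.Rows

/-! Project TT: one side, for the cyclic covers of the plane. -/

set_option autoImplicit false

namespace Pool.Agent.Helper48.TT

open IntermediateField TensorProduct Pool.Agent.Helper75.QC Pool.Agent.Helper75.WC
  Pool.Agent.Helper15.WC

/-- `z` is an eigenvector of the automorphism `u ↦ ζ u` of a curve `u ^ n = v ^ a (1 - v) ^ b`, for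
an eigenvalue `ξ` with `ξ ^ N = 1`, `ξ ^ 2 ≠ 1`, and `G` acts on it by `α`. -/
def IsEigen {Ω L G : Type} [Field Ω] [Field L] (T : BaseTheory Ω L) (N : ℕ) (C : Type) [Field C]
    [Algebra Ω C] (ρ : G → T.H 1 C →ₗ[L] T.H 1 C) (z : T.H 1 C) (α : G → L) : Prop :=
  ∃ (n a b : ℕ) (ζ : Ω) (v u : C) (σ : C →ₐ[Ω] C) (ξ : L), (n : Ω) ≠ 0 ∧ IsPrimitiveRoot ζ n ∧
    Transcendental Ω v ∧ u ^ n = v ^ a * (1 - v) ^ b ∧ adjoin Ω {v, u} = ⊤ ∧ σ v = v ∧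
    σ u = algebraMap Ω C ζ * u ∧ ξ ^ N = 1 ∧ ξ ^ 2 ≠ 1 ∧ z ≠ 0 ∧ T.map 1 σ z = ξ • z ∧
    ∀ γ, ρ γ z = α γ • z

variable {Ω L G : Type} [Field Ω] [Field L] (T : PairTheory Ω L G)

theorem mem_Acl_of {C : Type} [Field C] [Algebra Ω C] {n α β : ℕ} (hn : 0 < n) (v u : C)
    (hu : u ^ n = v ^ α * (1 - v) ^ β) (hC : adjoin Ω {v, u} = ⊤) (k : C) : k ∈ Acl Ω {v} := by
  rw [← mem_AF]
  have h1 : adjoin Ω {v, u} ≤ AF Ω {v} := by
    rw [adjoin_le_iff]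
    have hvm : v ∈ AF Ω {v} := subset_AF _ (by simp)
    rintro k (rfl | rfl)
    · exact hvm
    · apply AF_root hn
      rw [hu]
      exact mul_mem (pow_mem hvm _) (pow_mem (sub_mem (one_mem _) hvm) _)
  apply h1
  rw [hC]
  exact mem_top

/-- **One side for a cyclic cover.** -/
theorem exists_side [IsAlgClosed Ω] [CharZero L] [IsAlgClosed L] {K : Type} [Field K]
    [Algebra Ω K] (R : IntermediateField Ω K) (M : IntermediateField R K) [FiniteDimensional R M]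
    (hrow : Pool.Agent.Helper35.WC.RowData Ω R M) {Nn : ℕ} (hN : Module.finrank R M ∣ Nn)
    {K₁ : Type} [Field K₁] [Algebra Ω K₁] (s : T.H 2 K₁ →ₗ[L] T.H 2 M)
    (hs : ∀ γ t, T.act 2 M γ (s t) = s (T.act 2 K₁ γ t)) (c : (M ≃ₐ[R] M) → L)
    (hc : ∀ (g : M ≃ₐ[R] M) t, T.map 2 ((g : M →ₐ[R] M).restrictScalars Ω) (s t) = c g • s t)
    (hc1 : ∀ (g : M ≃ₐ[R] M) (d : ℕ), c g ^ d = 1 → g ^ d = 1) (hs0 : s ≠ 0) :
    ∃ (C D : Type) (_ : Field C) (_ : Algebra Ω C) (_ : Field D) (_ : Algebra Ω D)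
      (z : T.H 1 C) (α : G → L) (g : T.H 1 D →ₗ[L] T.H 2 M ⊗[L] T.H 1 C)
      (d : T.H 2 K₁ →ₗ[L] T.H 1 D) (φ : T.H 1 C →ₗ[L] L),
      IsEigen T.toBaseTheory Nn C (T.act 1 C) z α ∧ IsSide T s α C D z g d φ := by
  classical
  obtain ⟨n, α, β, x, y, w, hn, hn', hab, hα, hβ, hαβ, hR, hM, hdeg, hw0, ⟨c', hc'⟩, huni⟩ := hrow
  obtain ⟨t₀, ht₀⟩ : ∃ t, s t ≠ 0 := by
    by_contra h
    push Not at h
    exact hs0 (LinearMap.ext h)
  have : NeZero (n : Ω) := ⟨hn'⟩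
  obtain ⟨ζ, hζ⟩ : ∃ ζ : Ω, IsPrimitiveRoot ζ n :=
    HasEnoughRootsOfUnity.exists_primitiveRoot Ω n
  obtain ⟨hgen, hfin, hwm, σ, ξ, hσ, hσw, hξn, hξd, hξ⟩ := prim_kummer T.toBaseTheory R M 2 hn hn'
    hζ x y w hR hM hdeg c' hc'.symm hw0 (s t₀) (fun g => ⟨c g, hc g t₀, hc1 g⟩) ht₀
  obtain ⟨X, hX⟩ : ∃ X, X = algebraMap R M x := ⟨_, rfl⟩
  obtain ⟨Y, hY⟩ : ∃ Y, Y = algebraMap R M y := ⟨_, rfl⟩
  -- the same eigenvalue for all classes
  have hmem : ∀ a : R, algebraMap R M a ∈ adjoin Ω {algebraMap R M x, algebraMap R M y} := by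
    intro a
    rw [range_eq R M x y hR]
    exact ⟨a, rfl⟩
  let σ' : M →ₐ[R] M := { toRingHom := (σ : M →+* M), commutes' := fun a => hσ _ (hmem a) }
  let g₀ : M ≃ₐ[R] M := AlgEquiv.ofBijective σ' (Algebra.IsAlgebraic.algHom_bijective σ')
  have hg₀ : ((g₀ : M →ₐ[R] M).restrictScalars Ω) = σ := AlgHom.ext fun _ => rfl
  have hξ' : ∀ t, T.map 2 σ (s t) = ξ • s t := by
    have e1 : c g₀ = ξ := by
      have e2 := hc g₀ t₀
      rw [hg₀, hξ] at e2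
      have e3 : (ξ - c g₀) • s t₀ = 0 := by rw [sub_smul, e2, sub_self]
      exact (sub_eq_zero.1 ((smul_eq_zero.1 e3).resolve_right ht₀)).symm
    intro t
    have e2 := hc g₀ t
    rwa [hg₀, e1] at e2
  rw [← hX, ← hY] at hgen hfin hwm hσ huni
  have hfg : (⊤ : IntermediateField Ω M).FG := by
    rw [← hgen]
    exact fg_adjoin_of_finite (Set.toFinite _)
  have hxy : ∀ k : M, k ∈ Acl Ω {X, Y} := by
    intro k
    have : FiniteDimensional (adjoin Ω {X, Y}) M :=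
      Module.finite_of_finrank_pos (by rw [hfin]; exact hn)
    exact Algebra.IsAlgebraic.isAlgebraic k
  have hξ0 : ξ ≠ 0 := by
    rintro rfl
    rw [zero_pow hn.ne'] at hξn
    exact zero_ne_one hξn
  have hinv : ∀ j : ℕ, ¬ n ∣ j → ξ⁻¹ ^ j ≠ 1 := by
    intro j hj h
    apply hj
    rw [inv_pow, inv_eq_one] at h
    exact hξd j h
  obtain ⟨C, N, iC, jC, iN, jN, v, u, a, b, hv, hu, hC, hbv, hNg, hsig, -, -⟩ :=
    Pool.Agent.Helper35.TD.exists_curve_ab (Ω := Ω) (α := α) (β := β) hn hab M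
  obtain ⟨τ, hτ⟩ := hsig ζ hζ.pow_eq_one
  have hfinC : (⊤ : IntermediateField Ω C).FG := by
    rw [← hC]
    exact fg_adjoin_of_finite (Set.toFinite _)
  obtain ⟨z, hz0, hz⟩ := T.curve C n α β ζ v u τ hn' hζ hv hu hC hτ.1 hτ.2 ξ⁻¹
    (by rw [inv_pow, hξn, inv_one]) (hinv _ hα) (hinv _ hβ) (hinv _ hαβ)
  -- the character
  have hchar : ∀ γ, ∃ e : L, T.act 1 C γ z = e • z := fun γ =>
    T.simple C n α β ζ v u τ hn' hζ hv hu hC hτ.1 hτ.2 ξ⁻¹ z (T.act 1 C γ z) hz0 hz (by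
      rw [T.map_act, hz, map_smul])
  choose e he using hchar
  have huni' : ∀ z : T.H 3 (adjoin Ω {a X, a Y, b v, b u / a w} : IntermediateField Ω N), z = 0 := by
    apply T.uniruled
    refine huni N a (b v) (b u / a w) hbv ?_
    have h2 : b u ^ n = b v ^ α * (1 - b v) ^ β := by
      rw [← map_pow, hu, map_mul, map_pow, map_pow, map_sub, map_one]
    have h3 : a w ≠ 0 := fun h => hw0 (a.injective (h.trans (map_zero a).symm))
    rw [div_pow, h2, div_mul_cancel₀ _ (pow_ne_zero _ h3)]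
  obtain ⟨D, iD, jD, g, d, φ, h1, h2, h3, h4, h5, h6, h7⟩ := side T a b X Y v hfg hfinC hxy
    (mem_Acl_of hn v u hu hC) hbv s hs z hz0 e he (fun t =>
      cross_zero T.toBaseTheory hn hn' hζ a b X Y w v u hgen hC hNg hw0 hwm σ
        ⟨hσ _ (subset_adjoin _ _ (by simp)), hσ _ (subset_adjoin _ _ (by simp)), hσw⟩ τ hτ huni'
        ξ hξ0 (s t) (hξ' t) z hz)
  refine ⟨C, D, iC, jC, iD, jD, z, e, g, d, φ, ⟨n, α, β, ζ, v, u, τ, ξ⁻¹, hn', hζ, hv, hu, hC,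
    hτ.1, hτ.2, ?_, ?_, hz0, hz, he⟩, ⟨h1, h2, h3, h4, h5, h6, h7⟩⟩
  · rw [hdeg] at hN
    obtain ⟨m, rfl⟩ := hN
    rw [inv_pow, pow_mul, hξn, one_pow, inv_one]
  · -- `n` does not divide `2`
    apply hinv
    intro h
    have h8 : n = 1 ∨ n = 2 := by
      have := Nat.le_of_dvd (by norm_num) h
      omega
    rcases h8 with rfl | rfl
    · exact hα (one_dvd _)
    · omega

end Pool.Agent.Helper48.TT
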