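import Pool.Agent.Helper48.TT.Proj
import Pool.Agent.Helper35.WC.ListedM
import Pool.Agent.Helper15.WC.ActM
import Pool.Agent.Helper35.TD.Target2

/-! Project TT: one side, for the cyclic covers of the plane; `x`, `y`, `w` are elements of `M`. -/

set_option autoImplicit false

namespace Pool.Agent.Helper48.TT

open IntermediateField TensorProduct Pool.Agent.Helper75.QC Pool.Agent.Helper75.WC
  Pool.Agent.Helper15.WC

variable {Ω L G : Type} [Field Ω] [Field L] (T : PairTheory Ω L G)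

/-- **One side for a cyclic cover.** -/
theorem exists_side_gen [IsAlgClosed Ω] [CharZero L] [IsAlgClosed L] {K : Type} [Field K]
    [Algebra Ω K] (R : IntermediateField Ω K) (M : IntermediateField R K) [FiniteDimensional R M]
    {n : ℕ} (α β : ℕ) (x y w : M) (hn : 0 < n) (hn' : (n : Ω) ≠ 0) (hab : (α.gcd β).Coprime n)
    (hR : ∀ a : R, algebraMap R M a ∈ adjoin Ω {x, y}) (hM : adjoin Ω {x, y, w} = ⊤)
    (hdeg : Module.finrank (adjoin Ω {x, y}) M = n) (hw0 : w ≠ 0) (hwm : w ^ n ∈ adjoin Ω {x, y})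
    (huni : ∀ (N : Type) [Field N] [Algebra Ω N] (g : M →ₐ[Ω] N) (v s : N),
      Transcendental g.fieldRange v → v ^ α * (1 - v) ^ β = s ^ n * g w ^ n →
      Uniruled Ω (adjoin Ω {g x, g y, v, s} : IntermediateField Ω N) 3)
    (hexc : ∀ (ζ : Ω) (σ : M →ₐ[Ω] M), IsPrimitiveRoot ζ n → σ x = x → σ y = y →
      σ w = algebraMap Ω M ζ * w → ∀ (ξ : L) (t : T.H 2 M), (∀ d : ℕ, ξ ^ d = 1 → n ∣ d) →
      ξ ^ n = 1 → (ξ ^ α = 1 ∨ ξ ^ β = 1 ∨ ξ ^ (α + β) = 1) → T.map 2 σ t = ξ • t → t = 0)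
    {Nn : ℕ} (hN : n ∣ Nn)
    {K₁ : Type} [Field K₁] [Algebra Ω K₁] (s : T.H 2 K₁ →ₗ[L] T.H 2 M)
    (hs : ∀ γ t, T.act 2 M γ (s t) = s (T.act 2 K₁ γ t)) (c : (M ≃ₐ[R] M) → L)
    (hc : ∀ (g : M ≃ₐ[R] M) t, T.map 2 ((g : M →ₐ[R] M).restrictScalars Ω) (s t) = c g • s t)
    (hc1 : ∀ (g : M ≃ₐ[R] M) (d : ℕ), c g ^ d = 1 → g ^ d = 1) (hs0 : s ≠ 0) :
    ∃ (C D : Type) (_ : Field C) (_ : Algebra Ω C) (_ : Field D) (_ : Algebra Ω D)
      (z : T.H 1 C) (α : G → L) (g : T.H 1 D →ₗ[L] T.H 2 M ⊗[L] T.H 1 C)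
      (d : T.H 2 K₁ →ₗ[L] T.H 1 D) (φ : T.H 1 C →ₗ[L] L),
      IsEigen T.toBaseTheory Nn C (T.act 1 C) z α ∧ IsSide T s α C D z g d φ := by
  classical
  obtain ⟨t₀, ht₀⟩ : ∃ t, s t ≠ 0 := by
    by_contra h
    push Not at h
    exact hs0 (LinearMap.ext h)
  have : NeZero (n : Ω) := ⟨hn'⟩
  obtain ⟨ζ, hζ⟩ : ∃ ζ : Ω, IsPrimitiveRoot ζ n :=
    HasEnoughRootsOfUnity.exists_primitiveRoot Ω n
  obtain ⟨σ, ξ, hσ, hσw, hξn, hξd, hξ⟩ := prim_kummerM T.toBaseTheory R M 2 hn hn'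
    hζ x y w hR hM hdeg hwm hw0 (s t₀) (fun g => ⟨c g, hc g t₀, hc1 g⟩) ht₀
  -- the same eigenvalue for all classes
  let σ' : M →ₐ[R] M := { toRingHom := (σ : M →+* M), commutes' := fun a => hσ _ (hR a) }
  let g₀ : M ≃ₐ[R] M := AlgEquiv.ofBijective σ' (Algebra.IsAlgebraic.algHom_bijective σ')
  have hg₀ : ((g₀ : M →ₐ[R] M).restrictScalars Ω) = σ := AlgHom.ext fun _ => rfl
  have hξ' : ∀ t, T.map 2 σ (s t) = ξ • s t := by
    have e1 : c g₀ = ξ := by
      have e2 := hc g₀ t₀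
      rw [hg₀, hξ] at e2
      have e3 : (ξ - c g₀) • s t₀ = 0 := by rw [sub_smul, e2, sub_self]
      exact (sub_eq_zero.1 ((smul_eq_zero.1 e3).resolve_right ht₀)).symm
    intro t
    have e2 := hc g₀ t
    rwa [hg₀, e1] at e2
  have hx : σ x = x := hσ _ (subset_adjoin _ _ (by simp))
  have hy : σ y = y := hσ _ (subset_adjoin _ _ (by simp))
  have hnex : ¬ (ξ ^ α = 1 ∨ ξ ^ β = 1 ∨ ξ ^ (α + β) = 1) := fun h =>
    ht₀ (hexc ζ σ hζ hx hy hσw ξ (s t₀) hξd hξn h hξ)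
  have hfg : (⊤ : IntermediateField Ω M).FG := by
    rw [← hM]
    exact fg_adjoin_of_finite (Set.toFinite _)
  have hxy : ∀ k : M, k ∈ Acl Ω {x, y} := by
    intro k
    have : FiniteDimensional (adjoin Ω {x, y}) M :=
      Module.finite_of_finrank_pos (by rw [hdeg]; exact hn)
    exact Algebra.IsAlgebraic.isAlgebraic k
  have hξ0 : ξ ≠ 0 := by
    rintro rfl
    rw [zero_pow hn.ne'] at hξn
    exact zero_ne_one hξn
  have hinv : ∀ j : ℕ, ξ ^ j ≠ 1 → ξ⁻¹ ^ j ≠ 1 := by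
    intro j hj h
    apply hj
    rwa [inv_pow, inv_eq_one] at h
  obtain ⟨C, N, iC, jC, iN, jN, v, u, a, b, hv, hu, hC, hbv, hNg, hsig, -, -⟩ :=
    Pool.Agent.Helper35.TD.exists_curve_ab (Ω := Ω) (α := α) (β := β) hn hab M
  obtain ⟨τ, hτ⟩ := hsig ζ hζ.pow_eq_one
  have hfinC : (⊤ : IntermediateField Ω C).FG := by
    rw [← hC]
    exact fg_adjoin_of_finite (Set.toFinite _)
  obtain ⟨z, hz0, hz⟩ := T.curve C n α β ζ v u τ hn' hζ hv hu hC hτ.1 hτ.2 ξ⁻¹
    (by rw [inv_pow, hξn, inv_one]) (hinv _ fun h => hnex (Or.inl h))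
    (hinv _ fun h => hnex (Or.inr (Or.inl h))) (hinv _ fun h => hnex (Or.inr (Or.inr h)))
  -- the character
  have hchar : ∀ γ, ∃ e : L, T.act 1 C γ z = e • z := fun γ =>
    T.simple C n α β ζ v u τ hn' hζ hv hu hC hτ.1 hτ.2 ξ⁻¹ z (T.act 1 C γ z) hz0 hz (by
      rw [T.map_act, hz, map_smul])
  choose e he using hchar
  have huni' : ∀ z : T.H 3 (adjoin Ω {a x, a y, b v, b u / a w} : IntermediateField Ω N), z = 0 := by
    apply T.uniruled
    refine huni N a (b v) (b u / a w) hbv ?_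
    have h2 : b u ^ n = b v ^ α * (1 - b v) ^ β := by
      rw [← map_pow, hu, map_mul, map_pow, map_pow, map_sub, map_one]
    have h3 : a w ≠ 0 := fun h => hw0 (a.injective (h.trans (map_zero a).symm))
    rw [div_pow, h2, div_mul_cancel₀ _ (pow_ne_zero _ h3)]
  obtain ⟨D, iD, jD, g, d, φ, h1, h2, h3, h4, h5, h6, h7⟩ := side T a b x y v hfg hfinC hxy
    (mem_Acl_of hn v u hu hC) hbv s hs z hz0 e he (fun t =>
      cross_zero T.toBaseTheory hn hn' hζ a b x y w v u hM hC hNg hw0 hwm σ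
        ⟨hx, hy, hσw⟩ τ hτ huni' ξ hξ0 (s t) (hξ' t) z hz)
  refine ⟨C, D, iC, jC, iD, jD, z, e, g, d, φ, ⟨n, α, β, ζ, v, u, τ, ξ⁻¹, hn', hζ, hv, hu, hC,
    hτ.1, hτ.2, ?_, ?_, hz0, hz, he⟩, ⟨h1, h2, h3, h4, h5, h6, h7⟩⟩
  · obtain ⟨m, rfl⟩ := hN
    rw [inv_pow, pow_mul, hξn, one_pow, inv_one]
  · -- `n` does not divide `2`
    apply hinv
    intro h
    have h8 := hξd 2 h
    have h9 : n = 1 ∨ n = 2 := by
      have := Nat.le_of_dvd (by norm_num) h8
      omega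
    rcases h9 with rfl | rfl
    · apply hnex
      rw [pow_one] at hξn
      exact Or.inl (by rw [hξn, one_pow])
    · -- a sign
      have h10 : α % 2 = 0 ∨ β % 2 = 0 ∨ (α + β) % 2 = 0 := by omega
      have h11 : ∀ k : ℕ, k % 2 = 0 → ξ ^ k = 1 := by
        intro k hk
        obtain ⟨m, rfl⟩ := Nat.dvd_of_mod_eq_zero hk
        rw [pow_mul, h, one_pow]
      rcases h10 with h12 | h12 | h12
      · exact hnex (Or.inl (h11 _ h12))
      · exact hnex (Or.inr (Or.inl (h11 _ h12)))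
      · exact hnex (Or.inr (Or.inr (h11 _ h12)))

/-- The data of a cyclic cover `M / R` which are used. -/
def RowN {Ω L : Type} [Field Ω] [Field L] (T : BaseTheory Ω L) (R M : Type) [Field R] [Field M]
    [Algebra Ω M] [Algebra R M] (n : ℕ) : Prop :=
  ∃ (α β : ℕ) (x y w : M), 0 < n ∧ (n : Ω) ≠ 0 ∧ (α.gcd β).Coprime n ∧
    (∀ a : R, algebraMap R M a ∈ adjoin Ω {x, y}) ∧ adjoin Ω {x, y, w} = ⊤ ∧
    Module.finrank (adjoin Ω {x, y}) M = n ∧ w ≠ 0 ∧ w ^ n ∈ adjoin Ω {x, y} ∧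
    (∀ (N : Type) [Field N] [Algebra Ω N] (g : M →ₐ[Ω] N) (v s : N),
      Transcendental g.fieldRange v → v ^ α * (1 - v) ^ β = s ^ n * g w ^ n →
      Uniruled Ω (adjoin Ω {g x, g y, v, s} : IntermediateField Ω N) 3) ∧
    (∀ (ζ : Ω) (σ : M →ₐ[Ω] M), IsPrimitiveRoot ζ n → σ x = x → σ y = y →
      σ w = algebraMap Ω M ζ * w → ∀ (ξ : L) (t : T.H 2 M), (∀ d : ℕ, ξ ^ d = 1 → n ∣ d) →
      ξ ^ n = 1 → (ξ ^ α = 1 ∨ ξ ^ β = 1 ∨ ξ ^ (α + β) = 1) → T.map 2 σ t = ξ • t → t = 0)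

/-- `M = Ω(x, y, w)`, `R ⊆ Ω(x, y)`, is given by one of the equations, and the degree over
`Ω(x, y)` is `n`. -/
def LstN (Ω R M : Type) [Field Ω] [Field R] [Field M] [Algebra Ω M] [Algebra R M] (n : ℕ) : Prop :=
  ∃ x y w : M, (∀ r : R, algebraMap R M r ∈ adjoin Ω {x, y}) ∧ adjoin Ω {x, y, w} = ⊤ ∧
    Module.finrank (adjoin Ω {x, y}) M = n ∧ (IsWeighted Ω n x y w ∨ IsTab Ω n x y w)

/-- from the list to the data -/
theorem row_of_lst {Ω L : Type} [Field Ω] [IsAlgClosed Ω] [Field L] (T : BaseTheory Ω L)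
    {R M : Type} [Field R] [Field M] [Algebra Ω R] [Algebra Ω M] [Algebra R M]
    [IsScalarTower Ω R M] [FiniteDimensional R M] [IsGalois R M] {n : ℕ} (h : LstN Ω R M n) :
    Uniruled Ω M 2 ∨ RowN T R M n := by
  obtain ⟨x, y, w, hR, hM, hdeg, h | h⟩ := h
  · have hwn := weighted_mem h
    obtain ⟨hn0, hcast, hw0⟩ := cyc_dataM x y w hR hM hdeg hwn
    obtain ⟨hsmall, hlarge⟩ := row_uniM x y w hM hcast hw0 h
    rcases Nat.lt_or_ge 2 n with hn2 | hn2
    · right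
      obtain ⟨α, β, hαβ, hα, hβ, hαβ', huni⟩ := hlarge hn2
      refine ⟨α, β, x, y, w, hn0, hcast, hαβ, hR, hM, hdeg, hw0 (by omega), hwn,
        fun N _ _ g v s hv hs => huni N g v s ?_ ?_ hs, fun ζ σ hζ h1 h2 h3 ξ t hd hn hξ ht => ?_⟩
      · rintro rfl
        exact hv isAlgebraic_zero
      · rintro rfl
        exact hv (isAlgebraic_algebraMap (1 : g.fieldRange))
      · rcases hξ with h4 | h4 | h4
        · exact absurd (hd _ h4) hα
        · exact absurd (hd _ h4) hβ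
        · exact absurd (hd _ h4) hαβ'
    · exact Or.inl (hsmall hn2)
  · have hwn := tab_mem h
    obtain ⟨hn0, hcast, hw0⟩ := cyc_dataM x y w hR hM hdeg hwn
    obtain ⟨a, b, c, f, g, k, H, hw⟩ := h
    obtain ⟨w', -, ⟨h1, h2, h3, h4⟩⟩ := Pool.Agent.Helper35.TD.target2 T hn0 hcast x y w hM hdeg
      f g k a b c (by
        rcases H with H | H
        · exact Or.inr (Or.inl H)
        · exact Or.inr (Or.inr (Or.inl H))) hw Set.univ trivial trivial trivial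
    rcases h4 with h4 | ⟨h5, α, β, h6, h7, h8⟩
    · exact Or.inl h4
    · exact Or.inr ⟨α, β, x, y, w', hn0, hcast, h6, hR, h1, h2, h5, h3, h7,
        fun ζ σ hζ e1 e2 e3 ξ t _ hn hξ ht => h8 ζ σ hζ e1 e2 e3 ξ t hn hξ ht⟩

/-- the degree over `Ω(x, y)` divides the degree over `R` -/
theorem finrank_dvd {Ω R M : Type} [Field Ω] [Field R] [Field M] [Algebra Ω R] [Algebra Ω M]
    [Algebra R M] [IsScalarTower Ω R M] (B : IntermediateField Ω M)
    (hR : ∀ r : R, algebraMap R M r ∈ B) : Module.finrank B M ∣ Module.finrank R M := by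
  let _ : Algebra R B := RingHom.toAlgebra
    ({ toFun := fun r => ⟨algebraMap R M r, hR r⟩
       map_one' := Subtype.ext (map_one _)
       map_mul' := fun a b => Subtype.ext (map_mul _ a b)
       map_zero' := Subtype.ext (map_zero _)
       map_add' := fun a b => Subtype.ext (map_add _ a b) } : R →+* B)
  have : IsScalarTower R B M := IsScalarTower.of_algebraMap_eq fun r => rfl
  exact Dvd.intro_left _ (Module.finrank_mul_finrank R B M)

/-- the list without the degree -/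
theorem LstN.of_lstM {Ω R M : Type} [Field Ω] [Field R] [Field M] [Algebra Ω R] [Algebra Ω M]
    [Algebra R M] [IsScalarTower Ω R M] (h : LstM Ω R M) :
    ∃ n, n ∣ Module.finrank R M ∧ LstN Ω R M n := by
  obtain ⟨x, y, w, hR, hM, h⟩ := h
  exact ⟨_, finrank_dvd _ hR, x, y, w, hR, hM, rfl, h⟩

/-- The weighted degree of `f` is at most `n` times the sum of the weights of `x` and `y`. -/
theorem weighted_of_deg {Ω M : Type} [Field Ω] [Field M] [Algebra Ω M] {n a b : ℕ} (hn : 0 < n)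
    (hN : n ∣ 4 ∨ n ∣ 6) (hab : 0 < a + b) {x y w : M} (f : MvPolynomial (Fin 2) Ω)
    (hf : ∀ m ∈ f.support, a * m 0 + b * m 1 ≤ n * (a + b))
    (hw : w ^ n = MvPolynomial.aeval ![x, y] f) : IsWeighted Ω n x y w := by
  have h1 : n = 1 ∨ n = 2 ∨ n = 3 ∨ n = 4 ∨ n = 6 := by
    have h2 : n ≤ 6 := by
      rcases hN with h | h
      · exact (Nat.le_of_dvd (by norm_num) h).trans (by norm_num)
      · exact Nat.le_of_dvd (by norm_num) h
    interval_cases n <;> omega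
  have hone : ∀ c i k : ℕ, c * i ≤ k → DegLE a b c i k (1 : MvPolynomial (Fin 2) Ω) := by
    intro c i k h m hm
    have h2 : m = 0 := by
      have h3 := MvPolynomial.mem_support_iff.1 hm
      by_contra h4
      apply h3
      rw [MvPolynomial.coeff_one, if_neg (Ne.symm h4)]
    rw [h2]
    simpa using h
  have hg : MvPolynomial.aeval ![x, y] (1 : MvPolynomial (Fin 2) Ω) ≠ 0 := by
    rw [map_one]
    exact one_ne_zero
  rcases h1 with rfl | rfl | rfl | rfl | rfl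
  · refine ⟨a, b, 0, 0, 1, f, 1, hab, Or.inr rfl, fun m hm => ?_, Or.inl ⟨Or.inr rfl,
      hone _ _ _ (by simp), hg, ?_⟩⟩
    · have := hf m hm
      omega
    · rw [hw, map_one, one_pow, mul_one]
  · refine ⟨a, b, 0, 0, 2, f, 1, hab, Or.inr rfl, fun m hm => ?_, Or.inl ⟨Or.inr rfl,
      hone _ _ _ (by simp), hg, ?_⟩⟩
    · have := hf m hm
      omega
    · rw [hw, map_one, one_pow, mul_one]
  · refine ⟨a, b, a + b, 2, 1, f, 1, by omega, Or.inl (by norm_num), fun m hm => ?_,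
      Or.inl ⟨Or.inl rfl, hone _ _ _ (by omega), hg, ?_⟩⟩
    · have := hf m hm
      omega
    · rw [hw, map_one, one_pow, mul_one]
  · refine ⟨a, b, a + b, 2, 0, f, 1, by omega, Or.inl (by norm_num), fun m hm => ?_,
      Or.inl ⟨Or.inl rfl, hone _ _ _ (by omega), hg, ?_⟩⟩
    · have := hf m hm
      omega
    · rw [hw, map_one, one_pow, mul_one]
  · refine ⟨a, b, 2 * (a + b), 3, 0, f, 1, by omega, Or.inl (by norm_num), fun m hm => ?_,
      Or.inr ⟨by decide, hone _ _ _ (by omega), 3, rfl, Or.inr rfl, ?_⟩⟩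
    · have := hf m hm
      omega
    · rw [hw, map_one, one_pow, mul_one]

end Pool.Agent.Helper48.TT
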