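import Pool.Agent.Helper75.QC.Defs

/-! Project TT (MP_8abef2_ag): cycles of codimension two on products of two surfaces. The structure
used in the proofs and the contraction argument. -/

set_option autoImplicit false

namespace Pool.Agent.Helper48.TT

open IntermediateField TensorProduct Pool.Agent.Helper75.QC

/-- The contraction of an element of `(V ⊗ W) ⊗ (V' ⊗ W')` with a bilinear form. -/
noncomputable def contr {L V W V' W' : Type} [Field L] [AddCommGroup V] [Module L V]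
    [AddCommGroup W] [Module L W] [AddCommGroup V'] [Module L V'] [AddCommGroup W'] [Module L W']
    (q : W ⊗[L] W' →ₗ[L] L) : (V ⊗[L] W) ⊗[L] (V' ⊗[L] W') →ₗ[L] V ⊗[L] V' :=
  (TensorProduct.rid L (V ⊗[L] V')).toLinearMap ∘ₗ q.lTensor (V ⊗[L] V') ∘ₗ
    (TensorProduct.tensorTensorTensorComm L V W V' W').toLinearMap

theorem contr_tmul {L V W V' W' : Type} [Field L] [AddCommGroup V] [Module L V]
    [AddCommGroup W] [Module L W] [AddCommGroup V'] [Module L V'] [AddCommGroup W'] [Module L W']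
    (q : W ⊗[L] W' →ₗ[L] L) (v : V) (w : W) (v' : V') (w' : W') :
    contr q ((v ⊗ₜ w) ⊗ₜ (v' ⊗ₜ w')) = q (w ⊗ₜ w') • (v ⊗ₜ[L] v') := by
  simp [contr]

/-- The structure used in the proofs. -/
structure PairTheory (Ω L G : Type) [Field Ω] [Field L] extends BaseTheory Ω L where
  act : ∀ (i : ℕ) (K : Type) [Field K] [Algebra Ω K], G → (H i K →ₗ[L] H i K)
  map_act : ∀ (i : ℕ) {K K' : Type} [Field K] [Algebra Ω K] [Field K'] [Algebra Ω K']
    (g : K →ₐ[Ω] K') (γ : G) (t : H i K), map i g (act i K γ t) = act i K' γ (map i g t)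
  tate : G → L
  corr : ∀ (K C D : Type) [Field K] [Algebra Ω K] [Field C] [Algebra Ω C] [Field D]
    [Algebra Ω D], Set (H 1 D →ₗ[L] H 2 K ⊗[L] H 1 C)
  cycles : ∀ (K K' : Type) [Field K] [Algebra Ω K] [Field K'] [Algebra Ω K'],
    Submodule L (H 2 K ⊗[L] H 2 K')
  simple : ∀ (C : Type) [Field C] [Algebra Ω C] (n α β : ℕ) (ζ : Ω) (v u : C) (σ : C →ₐ[Ω] C),
    (n : Ω) ≠ 0 → IsPrimitiveRoot ζ n → Transcendental Ω v → u ^ n = v ^ α * (1 - v) ^ β →
    adjoin Ω {v, u} = ⊤ → σ v = v → σ u = algebraMap Ω C ζ * u →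
    ∀ (ξ : L) (z z' : H 1 C), z ≠ 0 → map 1 σ z = ξ • z → map 1 σ z' = ξ • z' → ∃ c : L, z' = c • z
  semisimple : ∀ (K : Type) [Field K] [Algebra Ω K], (⊤ : IntermediateField Ω K).FG →
    ∀ P : Submodule L (H 1 K), (∀ γ, ∀ t ∈ P, act 1 K γ t ∈ P) →
      ∃ Q : Submodule L (H 1 K), (∀ γ, ∀ t ∈ Q, act 1 K γ t ∈ Q) ∧ IsCompl P Q
  gysin : ∀ {K C N : Type} [Field K] [Algebra Ω K] [Field C] [Algebra Ω C] [Field N]
    [Algebra Ω N] (a : K →ₐ[Ω] N) (b : C →ₐ[Ω] N) (x y : K) (v : C),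
    (⊤ : IntermediateField Ω K).FG → (⊤ : IntermediateField Ω C).FG →
    (∀ k : K, k ∈ Acl Ω {x, y}) → (∀ k : C, k ∈ Acl Ω {v}) →
    Transcendental a.fieldRange (b v) →
    ∃ (D : Type) (_ : Field D) (_ : Algebra Ω D) (g : H 1 D →ₗ[L] H 2 K ⊗[L] H 1 C),
      (⊤ : IntermediateField Ω D).FG ∧ g ∈ corr K C D ∧
      (∀ (γ : G) (s : H 1 D), tate γ • TensorProduct.map (act 2 K γ) (act 1 C γ) (g s) =
        g (act 1 D γ s)) ∧
      ∀ t, TensorProduct.lift ((cup N).compl₁₂ (map 2 a) (map 1 b)) t = 0 →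
        t ∈ LinearMap.range g
  divisor : ∀ (K C D : Type) [Field K] [Algebra Ω K] [Field C] [Algebra Ω C] [Field D]
    [Algebra Ω D], ∀ g ∈ corr K C D, ∀ A : H 1 C →ₗ[L] H 1 D,
    (∀ γ t, A (act 1 C γ t) = act 1 D γ (A t)) → ∀ ξ : H 2 K →ₗ[L] L,
      LinearMap.trace L (H 1 C) (TensorProduct.lid L (H 1 C) ∘ₗ ξ.rTensor (H 1 C) ∘ₗ g ∘ₗ A) = 0
  pair : ∀ (K C D K' C' D' : Type) [Field K] [Algebra Ω K] [Field C] [Algebra Ω C] [Field D]
    [Algebra Ω D] [Field K'] [Algebra Ω K'] [Field C'] [Algebra Ω C'] [Field D'] [Algebra Ω D'],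
    ∀ g ∈ corr K C D, ∀ g' ∈ corr K' C' D', ∀ (r : H 1 D ⊗[L] H 1 D') (q : H 1 C ⊗[L] H 1 C' →ₗ[L] L),
      (∀ γ, tate γ • TensorProduct.map (act 1 D γ) (act 1 D' γ) r = r) →
      (∀ γ t, tate γ • q (TensorProduct.map (act 1 C γ) (act 1 C' γ) t) = q t) →
      contr q (TensorProduct.map g g' r) ∈ cycles K K'
  transfer : ∀ {K K₁ K' K₁' : Type} [Field K] [Algebra Ω K] [Field K₁] [Algebra Ω K₁] [Field K']
    [Algebra Ω K'] [Field K₁'] [Algebra Ω K₁'] (j : K →ₐ[Ω] K₁) (j' : K' →ₐ[Ω] K₁'),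
    (∀ a : K₁, IsAlgebraic j.fieldRange a) → (∀ a : K₁', IsAlgebraic j'.fieldRange a) →
    ∀ t, TensorProduct.map (map 2 j) (map 2 j') t ∈ cycles K₁ K₁' ↔ t ∈ cycles K K'

section lin

variable {L V W : Type} [Field L] [AddCommGroup V] [Module L V] [AddCommGroup W] [Module L W]

theorem trace_smulRight [FiniteDimensional L W] (φ : W →ₗ[L] L) (v : W) :
    LinearMap.trace L W (φ.smulRight v) = φ v := by
  have h := LinearMap.trace_eq_contract_apply (R := L) (M := W) (φ ⊗ₜ v)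
  rw [contractLeft_apply] at h
  rw [← h]
  congr 1

/-- an equivariant linear form -/
theorem exists_form {I : Type} (ρ : I → W →ₗ[L] W)
    (hss : ∀ P : Submodule L W, (∀ i, ∀ x ∈ P, ρ i x ∈ P) →
      ∃ Q : Submodule L W, (∀ i, ∀ x ∈ Q, ρ i x ∈ Q) ∧ IsCompl P Q)
    (z : W) (hz : z ≠ 0) (α : I → L) (hα : ∀ i, ρ i z = α i • z) :
    ∃ φ : W →ₗ[L] L, φ z = 1 ∧ ∀ i y, φ (ρ i y) = α i * φ y := by
  obtain ⟨Q, hQ, hc⟩ := hss (Submodule.span L {z}) (by
    intro i x hx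
    obtain ⟨c, rfl⟩ := Submodule.mem_span_singleton.1 hx
    rw [map_smul, hα, smul_comm]
    exact Submodule.smul_mem _ _ (Submodule.smul_mem _ _ (Submodule.mem_span_singleton_self z)))
  obtain ⟨φ₀, hφ₀⟩ : ∃ φ : Submodule.span L {z} →ₗ[L] L,
      φ ⟨z, Submodule.mem_span_singleton_self z⟩ = 1 := by
    exact ⟨(LinearEquiv.coord L W z hz).toLinearMap, LinearEquiv.coord_self L W z hz⟩
  let φ : W →ₗ[L] L := φ₀ ∘ₗ Submodule.projectionOnto _ Q hc
  have h1 : ∀ c : L, ∀ q ∈ Q, φ (c • z + q) = c := by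
    intro c q hq
    have h2 : Submodule.projectionOnto _ Q hc (c • z) =
        c • ⟨z, Submodule.mem_span_singleton_self z⟩ := by
      have := Submodule.projectionOnto_apply_of_mem_left hc
        (Submodule.smul_mem _ c (Submodule.mem_span_singleton_self z))
      exact this
    show φ₀ (Submodule.projectionOnto _ Q hc (c • z + q)) = c
    rw [map_add, h2, Submodule.projectionOnto_apply_of_mem_right hc hq, add_zero, map_smul, hφ₀,
      smul_eq_mul, mul_one]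
  refine ⟨φ, ?_, fun i y => ?_⟩
  · have := h1 1 0 Q.zero_mem
    rwa [one_smul, add_zero] at this
  · obtain ⟨u, hu, q, hq, rfl⟩ := Submodule.mem_sup.1
      (show y ∈ Submodule.span L {z} ⊔ Q by rw [hc.sup_eq_top]; trivial)
    obtain ⟨c, rfl⟩ := Submodule.mem_span_singleton.1 hu
    rw [map_add, map_smul, hα, smul_smul, h1 _ _ (hQ i q hq), h1 _ _ hq, mul_comm]

end lin

variable {Ω L G : Type} [Field Ω] [Field L] (T : PairTheory Ω L G)

/-- **One side.** Let `s` be an equivariant homomorphism with values in `H 2 M` such that the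
products of its values with an eigenvector `z ∈ H 1 C` vanish at the generic point. -/
theorem side {K₁ M C N : Type} [Field K₁] [Algebra Ω K₁] [Field M] [Algebra Ω M] [Field C]
    [Algebra Ω C] [Field N] [Algebra Ω N] (a : M →ₐ[Ω] N) (b : C →ₐ[Ω] N) (x y : M) (v : C)
    (hM : (⊤ : IntermediateField Ω M).FG) (hC : (⊤ : IntermediateField Ω C).FG)
    (hxy : ∀ k : M, k ∈ Acl Ω {x, y}) (hv : ∀ k : C, k ∈ Acl Ω {v})
    (htr : Transcendental a.fieldRange (b v)) (s : T.H 2 K₁ →ₗ[L] T.H 2 M)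
    (hs : ∀ γ t, T.act 2 M γ (s t) = s (T.act 2 K₁ γ t)) (z : T.H 1 C) (hz : z ≠ 0) (α : G → L)
    (hα : ∀ γ, T.act 1 C γ z = α γ • z)
    (h0 : ∀ t, T.cup N (T.map 2 a (s t)) (T.map 1 b z) = 0) :
    ∃ (D : Type) (_ : Field D) (_ : Algebra Ω D) (g : T.H 1 D →ₗ[L] T.H 2 M ⊗[L] T.H 1 C)
      (d : T.H 2 K₁ →ₗ[L] T.H 1 D) (φ : T.H 1 C →ₗ[L] L), (⊤ : IntermediateField Ω D).FG ∧
      g ∈ T.corr M C D ∧ φ z = 1 ∧ (∀ γ y, φ (T.act 1 C γ y) = α γ * φ y) ∧
      (∀ t, g (d t) = s t ⊗ₜ z) ∧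
      (∀ γ t, T.act 1 D γ (d t) = (T.tate γ * α γ) • d (T.act 2 K₁ γ t)) ∧
      ∀ w : T.H 1 D, (∀ γ, T.act 1 D γ w = α γ • w) →
        TensorProduct.rid L _ (φ.lTensor _ (g w)) = 0 := by
  obtain ⟨D, _, _, g, hD, hg, heq, hker⟩ := T.gysin a b x y v hM hC hxy hv htr
  have hCf : FiniteDimensional L (T.H 1 C) := T.fin 1 C hC
  obtain ⟨φ, hφz, hφ⟩ := exists_form (T.act 1 C) (T.semisimple C hC) z hz α hα
  -- the kernel of `g` and a complement
  obtain ⟨Q, hQ, hKQ⟩ := T.semisimple D hD (LinearMap.ker g) (by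
    intro γ t ht
    rw [LinearMap.mem_ker] at ht ⊢
    rw [← heq, ht, map_zero, smul_zero])
  have hinj : ∀ q ∈ Q, g q = 0 → q = 0 := by
    intro q hq h
    have h2 : q ∈ LinearMap.ker g ⊓ Q := ⟨h, hq⟩
    rwa [hKQ.inf_eq_bot, Submodule.mem_bot] at h2
  obtain ⟨l, hl⟩ := LinearMap.exists_leftInverse_of_injective (g ∘ₗ Q.subtype) (by
    rw [LinearMap.ker_eq_bot']
    intro q hq
    exact Subtype.ext (hinj q q.2 hq))
  have hlq : ∀ q : Q, l (g q) = q := fun q => LinearMap.congr_fun hl q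
  have hgl : ∀ u ∈ LinearMap.range g, g (l u : Q) = u := by
    rintro _ ⟨p, rfl⟩
    obtain ⟨k, hk, q, hq, rfl⟩ := Submodule.mem_sup.1
      (show p ∈ LinearMap.ker g ⊔ Q by rw [hKQ.sup_eq_top]; trivial)
    rw [map_add, LinearMap.mem_ker.1 hk, zero_add, hlq ⟨q, hq⟩]
  have hrange : ∀ t, s t ⊗ₜ[L] z ∈ LinearMap.range g := by
    intro t
    refine hker _ ?_
    rw [TensorProduct.lift.tmul]
    exact h0 t
  let d : T.H 2 K₁ →ₗ[L] T.H 1 D := Q.subtype ∘ₗ l ∘ₗ (TensorProduct.mk L _ _).flip z ∘ₗ s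
  have hd : ∀ t, d t = (l (s t ⊗ₜ[L] z) : Q) := fun t => rfl
  refine ⟨D, _, _, g, d, φ, hD, hg, hφz, hφ, fun t => ?_, fun γ t => ?_, fun w hw => ?_⟩
  · rw [hd]
    exact hgl _ (hrange t)
  · have h1 : g (T.act 1 D γ (d t)) = g ((T.tate γ * α γ) • d (T.act 2 K₁ γ t)) := by
      rw [← heq, hd, hgl _ (hrange t), TensorProduct.map_tmul, hα, hs, map_smul, hd,
        hgl _ (hrange _), TensorProduct.tmul_smul, smul_smul]
    have h2 : T.act 1 D γ (d t) - (T.tate γ * α γ) • d (T.act 2 K₁ γ t) ∈ Q := by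
      refine Q.sub_mem (hQ γ _ ?_) (Q.smul_mem _ ?_)
      · rw [hd]; exact Subtype.property _
      · rw [hd]; exact Subtype.property _
    refine sub_eq_zero.1 (hinj _ h2 ?_)
    rw [map_sub, h1, sub_self]
  · rw [← Module.forall_dual_apply_eq_zero_iff L]
    intro ξ
    have h1 := T.divisor M C D g hg (φ.smulRight w) (fun γ t => by
      rw [LinearMap.smulRight_apply, LinearMap.smulRight_apply, hφ, map_smul, hw, smul_smul,
        mul_comm]) ξ
    have h2 : TensorProduct.lid L (T.H 1 C) ∘ₗ ξ.rTensor (T.H 1 C) ∘ₗ g ∘ₗ φ.smulRight w =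
        φ.smulRight (TensorProduct.lid L (T.H 1 C) (ξ.rTensor (T.H 1 C) (g w))) := by
      ext t
      simp only [LinearMap.comp_apply, LinearMap.smulRight_apply, map_smul,
        LinearEquiv.coe_coe]
    rw [h2, trace_smulRight] at h1
    rw [← h1]
    have h3 : ∀ u : T.H 2 M ⊗[L] T.H 1 C, ξ (TensorProduct.rid L _ (φ.lTensor _ u)) =
        φ (TensorProduct.lid L (T.H 1 C) (ξ.rTensor (T.H 1 C) u)) := by
      intro u
      induction u using TensorProduct.induction_on with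
      | zero => simp
      | add u u' hu hu' => simp only [map_add, hu, hu']
      | tmul p q =>
        simp only [LinearMap.lTensor_tmul, TensorProduct.rid_tmul, map_smul,
          LinearMap.rTensor_tmul, TensorProduct.lid_tmul, smul_eq_mul]
        ring
    exact h3 (g w)

end Pool.Agent.Helper48.TT
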